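import Pool.Agent.UH.Loc

/-!
# Number fields with finitely many units: no exceptional quadratic polynomial except `X ^ 2 - 1`
-/

set_option autoImplicit false

open NumberField IsDedekindDomain
open scoped WithZero

namespace Pool.Agent.UHG

section cplx

theorem escape {C z : ℂ} (hC : ‖C‖ = 1) (hz : 2 ≤ ‖z‖) (n : ℕ) :
    2 ≤ ‖(UH.fc 2 C)^[n] z‖ := by
  induction n with
  | zero => exact hz
  | succ n ih =>
    rw [Function.iterate_succ_apply']
    set w := (UH.fc 2 C)^[n] z with hw
    unfold UH.fc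
    have h1 : ‖w ^ 2‖ ≤ ‖w ^ 2 + C‖ + ‖C‖ := by
      have := norm_sub_le (w ^ 2 + C) C
      rwa [add_sub_cancel_right] at this
    rw [norm_pow, hC] at h1
    nlinarith

theorem no_return {C : ℂ} (hC : ‖C‖ = 1) {j : ℕ} (hj : 2 ≤ ‖(UH.fc 2 C)^[j] 0‖) {m : ℕ}
    (hm : 0 < m) : (UH.fc 2 C)^[m] 0 ≠ 0 := by
  intro h
  have hk : ∀ k, (UH.fc 2 C)^[m * k] 0 = 0 := by
    intro k
    induction k with
    | zero => simp
    | succ k ih => rw [Nat.mul_succ, Function.iterate_add_apply, h, ih]
  obtain ⟨r, hr⟩ : ∃ r, m * j = r + j := ⟨m * j - j, by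
    have : j ≤ m * j := Nat.le_mul_of_pos_left j hm
    omega⟩
  have h1 := hk j
  rw [hr, Function.iterate_add_apply] at h1
  have h2 := escape hC hj r
  rw [h1, norm_zero] at h2
  norm_num at h2

theorem circle {C : ℂ} (hC : ‖C‖ = 1) (t : ℤ) (ht : C ^ 2 - t * C + 1 = 0) (hne : C ≠ -1)
    {m : ℕ} (hm : 0 < m) : (UH.fc 2 C)^[m] 0 ≠ 0 := by
  have hC0 : C ≠ 0 := by
    rintro rfl
    rw [norm_zero] at hC; norm_num at hC
  have htb : |t| ≤ 2 := by
    have h1 : (t : ℂ) * C = C ^ 2 + 1 := by linear_combination -ht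
    have h2 := congrArg norm h1
    rw [norm_mul, hC, mul_one, Complex.norm_intCast] at h2
    have h3 : ‖C ^ 2 + 1‖ ≤ 2 := by
      calc ‖C ^ 2 + 1‖ ≤ ‖C ^ 2‖ + ‖(1 : ℂ)‖ := norm_add_le _ _
        _ = 2 := by rw [norm_pow, hC, norm_one]; norm_num
    rw [← h2] at h3
    exact_mod_cast h3
  obtain ⟨h1, h2⟩ := abs_le.mp htb
  have e1 : (UH.fc 2 C)^[1] 0 = C := by simp [UH.fc]
  have e2 : (UH.fc 2 C)^[2] 0 = C ^ 2 + C := by
    rw [Function.iterate_succ_apply', e1]; rfl
  have e3 : (UH.fc 2 C)^[3] 0 = (C ^ 2 + C) ^ 2 + C := by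
    rw [Function.iterate_succ_apply', e2]; rfl
  have e4 : (UH.fc 2 C)^[4] 0 = ((C ^ 2 + C) ^ 2 + C) ^ 2 + C := by
    rw [Function.iterate_succ_apply', e3]; rfl
  have hcases : t = -2 ∨ t = -1 ∨ t = 0 ∨ t = 1 ∨ t = 2 := by omega
  rcases hcases with rfl | rfl | rfl | rfl | rfl
  · exfalso
    apply hne
    have : (C + 1) ^ 2 = 0 := by push_cast at ht; linear_combination ht
    exact eq_neg_of_add_eq_zero_left (pow_eq_zero_iff (by norm_num) |>.mp this)
  · -- primitive third root of unity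
    push_cast at ht
    have hq : C ^ 2 = -C - 1 := by linear_combination ht
    refine no_return hC (j := 4) ?_ hm
    have e : ((C ^ 2 + C) ^ 2 + C) ^ 2 + C = 2 * C := by
      rw [show C ^ 2 + C = -1 by linear_combination hq]
      linear_combination hq
    rw [e4, e, norm_mul, hC]
    norm_num
  · push_cast at ht
    have hq : C ^ 2 = -1 := by linear_combination ht
    have key : ∀ n, (UH.fc 2 C)^[n + 1] 0 = C ∨ (UH.fc 2 C)^[n + 1] 0 = C - 1 ∨
        (UH.fc 2 C)^[n + 1] 0 = -C := by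
      intro n
      induction n with
      | zero => left; exact e1
      | succ n ih =>
        rw [Function.iterate_succ_apply']
        rcases ih with h | h | h
        · right; left
          rw [h]; unfold UH.fc; linear_combination hq
        · right; right
          rw [h]; unfold UH.fc; linear_combination hq
        · right; left
          rw [h]; unfold UH.fc; linear_combination hq
    obtain ⟨n, rfl⟩ : ∃ n, m = n + 1 := ⟨m - 1, by omega⟩
    have hC1 : C ≠ 1 := by
      rintro rfl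
      norm_num at hq
    rcases key n with h | h | h
    · rw [h]; exact hC0
    · rw [h]; exact sub_ne_zero.mpr hC1
    · rw [h]; exact neg_ne_zero.mpr hC0
  · push_cast at ht
    have hq : C ^ 2 = C - 1 := by linear_combination ht
    refine no_return hC (j := 3) ?_ hm
    have e : (C ^ 2 + C) ^ 2 + C = C - 3 := by
      rw [hq]
      linear_combination 4 * hq
    rw [e3, e]
    have h3 : ‖(3 : ℂ)‖ ≤ ‖C - 3‖ + ‖C‖ := by
      have := norm_sub_le C (C - 3)
      rw [sub_sub_cancel] at this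
      linarith
    rw [hC] at h3
    have h4 : ‖(3 : ℂ)‖ = 3 := by norm_num
    linarith
  · push_cast at ht
    have h3 : (C - 1) ^ 2 = 0 := by linear_combination ht
    have h4 : C = 1 := sub_eq_zero.mp (pow_eq_zero_iff (by norm_num) |>.mp h3)
    refine no_return hC (j := 2) ?_ hm
    rw [e2, h4]
    norm_num

end cplx

section val
variable {F : Type*} [Field F] (u : Valuation F ℤᵐ⁰)

theorem per_le {c : F} (hc : 1 < u c) (n : ℕ) : u c ≤ u ((UH.fc 2 c)^[n + 1] 0) := by
  induction n with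
  | zero => simp [UH.fc]
  | succ n ih =>
    rw [Function.iterate_succ_apply']
    set w := (UH.fc 2 c)^[n + 1] 0 with hw
    have hw1 : 1 < u w := hc.trans_le ih
    have h2 : u w < u (w ^ 2) := by
      rw [map_pow, sq]
      exact lt_mul_of_one_lt_left (zero_lt_one.trans hw1) hw1
    unfold UH.fc
    rw [Valuation.map_add_eq_of_lt_left u (ih.trans_lt h2)]
    exact ih.trans h2.le

theorem per_ge {c : F} (hc0 : c ≠ 0) (hc : u c < 1) (n : ℕ) :
    u ((UH.fc 2 c)^[n + 1] 0) = u c := by
  induction n with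
  | zero => simp [UH.fc]
  | succ n ih =>
    rw [Function.iterate_succ_apply']
    unfold UH.fc
    have h0 : 0 < u c := zero_lt_iff.mpr ((Valuation.ne_zero_iff u).mpr hc0)
    have h2 : u (((UH.fc 2 c)^[n + 1] 0) ^ 2) < u c := by
      rw [map_pow, ih, sq]
      exact mul_lt_of_lt_one_left h0 hc
    exact Valuation.map_add_eq_of_lt_right u h2

/-- If `0` is periodic, then `c` has absolute value one. -/
theorem per_eq {c : F} (hc0 : c ≠ 0) {m : ℕ} (hm : 0 < m) (h : (UH.fc 2 c)^[m] 0 = 0) :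
    u c = 1 := by
  obtain ⟨n, rfl⟩ : ∃ n, m = n + 1 := ⟨m - 1, by omega⟩
  rcases lt_trichotomy (u c) 1 with h1 | h1 | h1
  · have h2 := per_ge u hc0 h1 n
    rw [h, map_zero] at h2
    exact absurd h2.symm ((Valuation.ne_zero_iff u).mpr hc0)
  · exact h1
  · have h2 := per_le u h1 n
    rw [h, map_zero] at h2
    exact absurd (h1.trans_le h2) (not_lt.mpr zero_le)

end val

section
variable {K : Type*} [Field K] [NumberField K]

theorem rank_zero [Finite (𝓞 K)ˣ] : Units.rank K = 0 := by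
  by_contra h
  obtain ⟨i⟩ : Nonempty (Fin (Units.rank K)) := ⟨⟨0, by omega⟩⟩
  obtain ⟨k, hk, hk'⟩ := (isOfFinOrder_of_finite (Units.fundSystem K i)).exists_pow_eq_one
  obtain ⟨z, _, hz⟩ := Units.exist_unique_eq_mul_prod K (1 : (𝓞 K)ˣ)
  have h1 := hz (1, 0) (by simp)
  have h2 := hz (1, Pi.single i (k : ℤ)) (by
    simp only [OneMemClass.coe_one, one_mul]
    rw [Finset.prod_eq_single i]
    · rw [Pi.single_eq_same, zpow_natCast, hk']
    · intro j _ hj
      rw [Pi.single_eq_of_ne hj, zpow_zero]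
    · intro hi
      exact absurd (Finset.mem_univ i) hi)
  have h3 := h1.trans h2.symm
  have h4 := congrFun (congrArg Prod.snd h3) i
  simp at h4
  omega

theorem card_places [Finite (𝓞 K)ˣ] : Fintype.card (InfinitePlace K) = 1 := by
  have h2 : Fintype.card (InfinitePlace K) - 1 = 0 := rank_zero (K := K)
  have h3 : 0 < Fintype.card (InfinitePlace K) := Fintype.card_pos
  omega

theorem unit_norm [Finite (𝓞 K)ˣ] (η : (𝓞 K)ˣ) (φ : K →+* ℂ) :
    ‖φ (((η : 𝓞 K) : K))‖ = 1 := by
  obtain ⟨k, hk, hk'⟩ := (isOfFinOrder_of_finite η).exists_pow_eq_one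
  have h1 : (φ (((η : 𝓞 K) : K))) ^ k = 1 := by
    rw [← map_pow, ← map_pow, ← Units.val_pow_eq_pow_val, hk']
    simp
  have h2 := congrArg norm h1
  rw [norm_pow, norm_one] at h2
  exact (pow_eq_one_iff_of_nonneg (norm_nonneg _) (by omega)).mp h2

/-- Fields with finitely many units. -/
theorem fin_units [Finite (𝓞 K)ˣ] (c : K) (h0 : c ≠ 0) (h1 : c ≠ -1) :
    (∀ m, 0 < m → (UH.fc 2 c)^[m] 0 ≠ 0) ∧
    (∀ η : (𝓞 K)ˣ, (8 : 𝓞 K) ∣ (η : 𝓞 K) - 1 → c * (((η : 𝓞 K) : K) - 1) ≠ 2) := by
  constructor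
  · intro m hm h
    have hval : ∀ v : HeightOneSpectrum (𝓞 K), v.valuation K c = 1 :=
      fun v => per_eq (v.valuation K) h0 hm h
    obtain ⟨a, ha⟩ := HeightOneSpectrum.mem_integers_of_valuation_le_one K c
      (fun v => (hval v).le)
    obtain ⟨b, hb⟩ := HeightOneSpectrum.mem_integers_of_valuation_le_one K c⁻¹
      (fun v => by rw [map_inv₀, hval v, inv_one])
    have hab : a * b = 1 := by
      apply RingOfIntegers.coe_injective
      rw [map_mul, ha, hb, map_one, mul_inv_cancel₀ h0]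
    let η : (𝓞 K)ˣ := ⟨a, b, hab, by rw [mul_comm]; exact hab⟩
    obtain ⟨w, hw⟩ := Fintype.card_eq_one_iff.mp (card_places (K := K))
    set φ := w.embedding with hφ
    have hC : ‖φ c‖ = 1 := by
      have := unit_norm η φ
      change ‖φ (algebraMap (𝓞 K) K a)‖ = 1 at this
      rwa [ha] at this
    -- `‖φ c + 1‖ ^ 2` is an integer
    have hint : ∃ M : ℤ, ‖φ c + 1‖ ^ 2 = M := by
      have h2 := InfinitePlace.prod_eq_abs_norm (K := K) (c + 1)
      rw [Fintype.prod_eq_single w (fun y hy => absurd (hw y) hy)] at h2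
      have h3 : (Algebra.norm ℚ (c + 1) : ℚ) = ((Algebra.norm ℤ (a + 1) : ℤ) : ℚ) := by
        rw [Algebra.coe_norm_int]
        congr 1
        change c + 1 = algebraMap (𝓞 K) K (a + 1)
        rw [map_add, ha, map_one]
      have h4 : w (c + 1) = ‖φ c + 1‖ := by
        rw [← InfinitePlace.norm_embedding_eq, ← hφ, map_add, map_one]
      rw [h3, h4] at h2
      have h5 : (((|((Algebra.norm ℤ (a + 1) : ℤ) : ℚ)| : ℚ)) : ℝ) =
          ((|Algebra.norm ℤ (a + 1)| : ℤ) : ℝ) := by push_cast; rfl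
      rw [h5] at h2
      unfold InfinitePlace.mult at h2
      split_ifs at h2
      · refine ⟨|Algebra.norm ℤ (a + 1)| ^ 2, ?_⟩
        rw [pow_one] at h2
        rw [h2]; push_cast; rfl
      · exact ⟨_, h2⟩
    obtain ⟨M, hM⟩ := hint
    have hne : φ c ≠ -1 := by
      intro h2
      apply h1
      apply φ.injective
      rw [h2, map_neg, map_one]
    have hq : (φ c) ^ 2 - ((M - 2 : ℤ) : ℂ) * φ c + 1 = 0 := by
      have h2 : (φ c + 1) * (starRingEnd ℂ) (φ c + 1) = ((M : ℤ) : ℂ) := by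
        rw [Complex.mul_conj, Complex.normSq_eq_norm_sq, hM]
        push_cast; rfl
      have h3 : φ c * (starRingEnd ℂ) (φ c) = 1 := by
        rw [Complex.mul_conj, Complex.normSq_eq_norm_sq, hC]
        norm_num
      rw [map_add, map_one] at h2
      push_cast
      linear_combination φ c * h2 - (φ c + 1) * h3
    apply circle hC (M - 2) hq hne hm
    have h6 := UH.map_iter_fc φ 2 c 0 m
    rw [h, map_zero] at h6
    exact h6.symm
  · intro η hη h
    obtain ⟨a, ha⟩ := hη
    have ha' : (((η : 𝓞 K) : K)) - 1 = 8 * (a : K) := by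
      have := congrArg (algebraMap (𝓞 K) K) ha
      rw [map_sub, map_one, map_mul, map_ofNat (algebraMap (𝓞 K) K) 8] at this
      exact this
    by_cases ha0 : a = 0
    · rw [ha', ha0] at h
      have : ((0 : 𝓞 K) : K) = 0 := map_zero (algebraMap (𝓞 K) K)
      rw [this, mul_zero, mul_zero] at h
      norm_num at h
    · have hlt : ∀ z : InfinitePlace K, z (a : K) < 1 := by
        intro z
        have h2 : z (8 * (a : K)) ≤ 2 := by
          rw [← ha', ← InfinitePlace.norm_embedding_eq, map_sub, map_one]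
          calc ‖z.embedding ((η : 𝓞 K) : K) - 1‖ ≤ ‖z.embedding ((η : 𝓞 K) : K)‖ + ‖(1 : ℂ)‖ :=
                norm_sub_le _ _
            _ = 2 := by rw [unit_norm, norm_one]; norm_num
        rw [← InfinitePlace.norm_embedding_eq, map_mul, norm_mul,
          map_ofNat z.embedding 8, InfinitePlace.norm_embedding_eq] at h2
        have h3 : ‖(8 : ℂ)‖ = 8 := by norm_num
        rw [h3] at h2
        linarith
      obtain ⟨w⟩ : Nonempty (InfinitePlace K) := inferInstance
      have h2 := InfinitePlace.one_le_of_lt_one (w := w) ha0 (fun z _ => hlt z)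
      exact absurd (hlt w) (not_lt.mpr h2)

end

end Pool.Agent.UHG
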