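import Pool.Agent.UHG.Pot
import Pool.Agent.UHT.TColl

/-!
# The degree bound for `X ^ 2 + c` at a place above 2 with `|4 c| < 1`
-/

set_option autoImplicit false

open IsDedekindDomain NumberField Polynomial

namespace Pool.Agent.UHG

universe u v

theorem eval_iter_quad {K : Type*} [Field K] (c : K) (n : ℕ) :
    ((X ^ 2 + C c : K[X]).comp^[n] X).eval 0 = (UH.fc 2 c)^[n] 0 := by
  induction n with
  | zero => simp
  | succ n ih =>
    rw [Function.iterate_succ_apply', Function.iterate_succ_apply', eval_comp, ih]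
    simp [UH.fc]

theorem coprime_quad {K : Type*} [Field K] [CharZero K] (c : K)
    (hper : ∀ m, 0 < m → (UH.fc 2 c)^[m] 0 ≠ 0) (n : ℕ) (hn : 0 < n) :
    IsCoprime (derivative (X ^ 2 + C c : K[X])) ((X ^ 2 + C c : K[X]).comp^[n] X - X) := by
  have h1 : derivative (X ^ 2 + C c : K[X]) = C 2 * X := by
    rw [derivative_add, derivative_C, add_zero, derivative_X_pow]
    norm_num
  have h2 : (2 : K) ≠ 0 := two_ne_zero
  rw [h1]
  refine (isCoprime_mul_unit_left_left (isUnit_C.mpr (isUnit_iff_ne_zero.mpr h2)) X _).mpr ?_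
  have h3 : IsCoprime (X - C (0 : K)) ((X ^ 2 + C c : K[X]).comp^[n] X - X) := by
    rw [(irreducible_X_sub_C (0 : K)).coprime_iff_not_dvd, dvd_iff_isRoot, IsRoot.def, eval_sub,
      eval_X, sub_zero, eval_iter_quad]
    exact hper n hn
  simpa using h3

/-- **Potentially good reduction of `X ^ 2 + c` above `2`.** -/
theorem DB_pot_two {K : Type v} [Field K] [NumberField K] (c : K) (v : HeightOneSpectrum (𝓞 K))
    (h2 : v.valuation K 2 < 1) (h4 : v.valuation K (4 * c) < 1)
    (hper : ∀ m, 0 < m → (UH.fc 2 c)^[m] 0 ≠ 0) : DB.{u, v} (X ^ 2 + C c : K[X]) := by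
  classical
  -- a fixed point
  obtain ⟨b, hb⟩ : ∃ b : AlgebraicClosure K, b ^ 2 - b + algebraMap K _ c = 0 := by
    obtain ⟨b, hb⟩ := IsAlgClosed.exists_root (X ^ 2 - X + C (algebraMap K (AlgebraicClosure K) c))
      (by
        have : (X ^ 2 - X + C (algebraMap K (AlgebraicClosure K) c)).degree = 2 := by
          compute_degree!
        rw [this]
        norm_num)
    exact ⟨b, by simpa using hb⟩
  let K' : IntermediateField K (AlgebraicClosure K) := IntermediateField.adjoin K {b}
  have : FiniteDimensional K K' :=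
    IntermediateField.adjoin.finiteDimensional (Algebra.IsIntegral.isIntegral b)
  have : NumberField K' := {
    to_charZero := inferInstance
    to_finiteDimensional := Module.Finite.trans K K' }
  let β : K' := ⟨b, IntermediateField.mem_adjoin_simple_self K b⟩
  have hβ : β ^ 2 - β + algebraMap K K' c = 0 := Subtype.ext hb
  obtain ⟨W, e, r, he, _, _, _, _, hW⟩ := UHT.exists_above' v K'
  have hlt : ∀ x : K, v.valuation K x < 1 → W.valuation K' (algebraMap K K' x) < 1 := by
    intro x hx
    rw [← hW x]
    exact pow_lt_one₀ zero_le hx he.ne'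
  have h2' : W.valuation K' (2 : K') < 1 := by
    have := hlt 2 h2
    rwa [map_ofNat] at this
  have h4' : W.valuation K' (4 * algebraMap K K' c) < 1 := by
    have := hlt (4 * c) h4
    rwa [map_mul, map_ofNat] at this
  -- the multiplier
  have hmul : W.valuation K' (2 * β) < 1 := by
    by_contra hcon
    push Not at hcon
    have e1 : (2 * β) ^ 2 = 2 * (2 * β) - 4 * algebraMap K K' c := by
      linear_combination 4 * hβ
    have h5 : W.valuation K' (2 * (2 * β)) < W.valuation K' ((2 * β) ^ 2) := by
      rw [map_mul, map_pow, pow_two]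
      have hpos : 0 < W.valuation K' (2 * β) := lt_of_lt_of_le one_pos hcon
      calc W.valuation K' 2 * W.valuation K' (2 * β) < 1 * W.valuation K' (2 * β) :=
            (mul_lt_mul_iff_of_pos_right hpos).mpr h2'
        _ ≤ W.valuation K' (2 * β) * W.valuation K' (2 * β) := mul_le_mul_left hcon _
    have h6 : W.valuation K' (4 * algebraMap K K' c) < W.valuation K' ((2 * β) ^ 2) := by
      rw [map_pow]
      exact h4'.trans_le (one_le_pow₀ hcon)
    have h7 := Valuation.map_sub_lt _ h5 h6
    rw [← e1] at h7
    exact lt_irrefl _ h7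
  have hdeg : (X ^ 2 + C c : K[X]).natDegree = 2 ^ 1 := by
    rw [natDegree_add_C, natDegree_X_pow]; norm_num
  refine DB.wild (K' := K') Nat.prime_two one_pos (X ^ 2 + C c) (X ^ 2 + C (2 * β) * X) 1 β
    one_ne_zero ?_ W ?_ hdeg ?_ ?_ ?_ (coprime_quad c hper)
  · rw [Polynomial.map_add, Polynomial.map_pow, map_X, map_C, add_comp, C_comp]
    simp only [map_one, one_mul, pow_comp, X_comp]
    have h8 : algebraMap K K' c = β - β ^ 2 := by linear_combination hβ
    rw [h8]
    simp only [map_mul, map_sub, map_pow, map_ofNat]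
    ring
  · exact_mod_cast h2'
  · simp
  · intro i h1 h3
    have : i = 1 := by norm_num at h3; omega
    subst this
    simpa using hmul
  · simp

end Pool.Agent.UHG
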