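import Pool.Agent.UHG.Uni
import Pool.Agent.UH2.RatTwo
import Pool.Agent.UHG.PotTwo

/-!
# Quadratic polynomials: one of the local cases occurs unless `1 + 2/c` is a unit, `1` modulo `8`
-/

set_option autoImplicit false

universe u v

open NumberField Polynomial IsDedekindDomain

namespace Pool.Agent.UHG

open Pool.Agent.UH (fc)

section
variable {K : Type*} [Field K] [NumberField K]

theorem val_two_le (v : HeightOneSpectrum (𝓞 K)) : v.valuation K 2 ≤ 1 := by
  have h := v.valuation_le_one (K := K) (2 : 𝓞 K)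
  have e : (algebraMap (𝓞 K) K) 2 = 2 := map_ofNat _ 2
  exact (congrArg (fun t => v.valuation K t ≤ 1) e).mp h

/-- One of the local cases occurs unless `c = 2 / (η - 1)` with a unit `η`, `8 ∣ η - 1`. -/
theorem exists_place (c : K) (hc : c ≠ 0)
    (hη : ∀ η : (𝓞 K)ˣ, (8 : 𝓞 K) ∣ (η : 𝓞 K) - 1 → c * (((η : 𝓞 K) : K) - 1) ≠ 2) :
    ∃ v : HeightOneSpectrum (𝓞 K),
      (v.valuation K 2 < 1 ∧ v.valuation K (4 * c) < 1) ∨
      (v.valuation K 2 = 1 ∧ v.valuation K c < 1) ∨
      (v.valuation K 2 = 1 ∧ v.valuation K (c + 2) < 1) := by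
  by_cases hc2 : c = -2
  · obtain ⟨v, hv⟩ := UH2.rat_two K (-2) (by norm_num) (by norm_num)
    have e : (((-2 : ℚ)) : K) = -2 := by push_cast; ring
    rw [e] at hv
    refine ⟨v, ?_⟩
    rw [hc2]
    rcases hv with ⟨h1, h2, _⟩ | h | h
    · refine Or.inl ⟨h1, ?_⟩
      have e4 : (4 : K) = 2 * 2 := by norm_num
      rw [map_mul, e4, map_mul]
      have h3 : v.valuation K 2 * v.valuation K 2 < 1 :=
        mul_lt_one_of_nonneg_of_lt_one_left zero_le h1 h1.le
      calc v.valuation K 2 * v.valuation K 2 * v.valuation K (-2)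
          ≤ v.valuation K 2 * v.valuation K 2 * 1 := by gcongr
        _ = v.valuation K 2 * v.valuation K 2 := mul_one _
        _ < 1 := h3
    · exact Or.inr (Or.inl h)
    · exact Or.inr (Or.inr h)
  by_contra hcon
  push Not at hcon
  -- `1 ≤ v (4 c)` at all places
  have h4 : ∀ v : HeightOneSpectrum (𝓞 K), 1 ≤ v.valuation K (4 * c) := by
    intro v
    obtain ⟨h1, h2, h3⟩ := hcon v
    rcases lt_or_eq_of_le (val_two_le v) with h | h
    · exact h1 h
    · have e4 : (4 : K) = 2 * 2 := by norm_num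
      rw [map_mul, e4, map_mul, h, one_mul, one_mul]
      exact h2 h
  have key : ∀ v : HeightOneSpectrum (𝓞 K), v.valuation K (c + 2) = v.valuation K c := by
    intro v
    obtain ⟨h1, h2, h3⟩ := hcon v
    rcases lt_or_eq_of_le (val_two_le v) with h | h
    · refine Valuation.map_add_eq_of_lt_left _ (h.trans ?_)
      -- `1 < v c`
      by_contra hc1
      push Not at hc1
      have h5 := h4 v
      have e4 : (4 : K) = 2 * 2 := by norm_num
      rw [map_mul, e4, map_mul] at h5
      have h6 : v.valuation K 2 * v.valuation K 2 < 1 :=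
        mul_lt_one_of_nonneg_of_lt_one_left zero_le h h.le
      have h7 : v.valuation K 2 * v.valuation K 2 * v.valuation K c < 1 := by
        calc v.valuation K 2 * v.valuation K 2 * v.valuation K c
            ≤ v.valuation K 2 * v.valuation K 2 * 1 := by gcongr
          _ = v.valuation K 2 * v.valuation K 2 := mul_one _
          _ < 1 := h6
      exact absurd h5 (not_le.mpr h7)
    · rcases lt_or_eq_of_le (h2 h) with h5 | h5
      · exact Valuation.map_add_eq_of_lt_left _ (by rw [h]; exact h5)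
      · refine le_antisymm ?_ ?_
        · refine (Valuation.map_add _ _ _).trans (max_le le_rfl ?_)
          rw [h, h5]
        · rw [← h5]; exact h3 h
  have hv1 : ∀ v : HeightOneSpectrum (𝓞 K), v.valuation K ((c + 2) / c) = 1 := by
    intro v
    rw [map_div₀, key v]
    exact div_self ((Valuation.ne_zero_iff _).mpr hc)
  obtain ⟨a, ha⟩ := HeightOneSpectrum.mem_integers_of_valuation_le_one K ((c + 2) / c)
    (fun v => (hv1 v).le)
  obtain ⟨b, hb⟩ := HeightOneSpectrum.mem_integers_of_valuation_le_one K (((c + 2) / c)⁻¹)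
    (fun v => by rw [map_inv₀, hv1 v, inv_one])
  obtain ⟨d, hd⟩ := HeightOneSpectrum.mem_integers_of_valuation_le_one K ((4 * c)⁻¹)
    (fun v => by rw [map_inv₀]; exact inv_le_one_of_one_le₀ (h4 v))
  have hη0 : (c + 2) / c ≠ 0 := by
    refine div_ne_zero (fun h => hc2 ?_) hc
    linear_combination h
  have hab : a * b = 1 := by
    apply FaithfulSMul.algebraMap_injective (𝓞 K) K
    rw [map_mul, ha, hb, map_one, mul_inv_cancel₀ hη0]
  have ha' : (a : K) = (c + 2) / c := ha
  have hd' : (d : K) = (4 * c)⁻¹ := hd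
  refine hη (Units.mkOfMulEqOne a b hab) ?_ ?_
  · rw [Units.val_mkOfMulEqOne]
    refine ⟨d, ?_⟩
    apply FaithfulSMul.algebraMap_injective (𝓞 K) K
    rw [map_sub, map_one, map_mul, ha, hd]
    have e : (algebraMap (𝓞 K) K) 8 = 8 := map_ofNat _ 8
    rw [e]
    field_simp
    ring
  · rw [Units.val_mkOfMulEqOne, ha']
    field_simp
    ring

end

/-- **Quadratic polynomials.** The potentially good wild case is an input. -/
theorem DB_quad_of {K : Type v} [Field K] [NumberField K] (c : K)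
    (hpot : ∀ v : HeightOneSpectrum (𝓞 K), v.valuation K 2 < 1 → v.valuation K (4 * c) < 1 →
      DB.{u, v} (X ^ 2 + C c : K[X]))
    (hper : ∀ m, 0 < m → (fc 2 c)^[m] 0 ≠ 0)
    (hη : ∀ η : (𝓞 K)ˣ, (8 : 𝓞 K) ∣ (η : 𝓞 K) - 1 → c * (((η : 𝓞 K) : K) - 1) ≠ 2) :
    DB.{u, v} (X ^ 2 + C c : K[X]) := by
  have hc : c ≠ 0 := by
    have := hper 1 one_pos
    simpa [fc] using this
  obtain ⟨v, hv⟩ := exists_place c hc hη
  rcases hv with ⟨h1, h2⟩ | ⟨h1, h2⟩ | ⟨h1, h2⟩
  · exact hpot v h1 h2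
  · have := DB_tame.{u, v} Nat.prime_two one_pos c hc v (by exact_mod_cast h1) h2
    rwa [pow_one] at this
  · exact DB_cheb c v h1 h2

/-- **Quadratic polynomials.** -/
theorem DB_quad {K : Type v} [Field K] [NumberField K] (c : K)
    (hper : ∀ m, 0 < m → (fc 2 c)^[m] 0 ≠ 0)
    (hη : ∀ η : (𝓞 K)ˣ, (8 : 𝓞 K) ∣ (η : 𝓞 K) - 1 → c * (((η : 𝓞 K) : K) - 1) ≠ 2) :
    DB.{u, v} (X ^ 2 + C c : K[X]) :=
  DB_quad_of c (fun v h2 h4 => DB_pot_two c v h2 h4 hper) hper hη

end Pool.Agent.UHG
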