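import Mathlib

/-!
# Transfer of the degree bound through a finite extension and an affine conjugation

`K ⊆ K'` number fields, `f ∈ K[X]`, `g ∈ K'[X]` with `a g(w) + b = f(a w + b)`, `a ≠ 0`. A lower
bound `d ^ N ≤ C₀ [E' : K']` for exact collisions of `g` gives the same bound for `f` over `K`.
-/

set_option autoImplicit false

open Polynomial

namespace Pool.Agent.UHG

theorem transfer_core.{u, v, w} {K : Type v} [Field K] [NumberField K] {K' : Type w} [Field K']
    [NumberField K'] [Algebra K K'] (f : K[X]) (g : K'[X]) (a b : K') (ha : a ≠ 0)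
    (hg : C a * g + C b = (f.map (algebraMap K K')).comp (C a * X + C b))
    (E : Type u) [Field E] [NumberField E] [Algebra K E] (x y : E) (N : ℕ)
    (h1 : (fun z : E => aeval z f)^[N + 1] x = (fun z : E => aeval z f)^[N + 1] y)
    (h2 : (fun z : E => aeval z f)^[N] x ≠ (fun z : E => aeval z f)^[N] y) :
    ∃ (E' : Type u) (_ : Field E') (_ : NumberField E') (_ : Algebra K' E') (x' y' : E'),
      (fun z : E' => aeval z g)^[N + 1] x' = (fun z : E' => aeval z g)^[N + 1] y' ∧
      (fun z : E' => aeval z g)^[N] x' ≠ (fun z : E' => aeval z g)^[N] y' ∧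
      Module.finrank K' E' ≤ Module.finrank K E := by
  classical
  haveI : FiniteDimensional K K' := Module.Finite.of_restrictScalars_finite ℚ K K'
  haveI : FiniteDimensional K E := Module.Finite.of_restrictScalars_finite ℚ K E
  let Ω := AlgebraicClosure E
  let φ : K' →ₐ[K] Ω := IsAlgClosed.lift
  let ψ : E →ₐ[K] Ω := IsScalarTower.toAlgHom K E Ω
  let E1 : IntermediateField K Ω := φ.fieldRange
  let E2 : IntermediateField K Ω := ψ.fieldRange
  let E' : IntermediateField K Ω := E1 ⊔ E2
  have hE1 : ∀ z, φ z ∈ E' := fun z => (le_sup_left : E1 ≤ E') ⟨z, rfl⟩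
  have hE2 : ∀ z, ψ z ∈ E' := fun z => (le_sup_right : E2 ≤ E') ⟨z, rfl⟩
  let j : K' →+* E' := (φ : K' →+* Ω).codRestrict E' hE1
  let k : E →+* E' := (ψ : E →+* Ω).codRestrict E' hE2
  letI algK' : Algebra K' E' := j.toAlgebra
  haveI tow : IsScalarTower K K' E' := by
    refine IsScalarTower.of_algebraMap_eq fun z => ?_
    apply Subtype.ext
    exact (φ.commutes z).symm
  have e1 : Module.finrank K E1 = Module.finrank K K' :=
    (LinearEquiv.finrank_eq (AlgEquiv.ofInjectiveField φ).toLinearEquiv).symm
  have e2 : Module.finrank K E2 = Module.finrank K E :=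
    (LinearEquiv.finrank_eq (AlgEquiv.ofInjectiveField ψ).toLinearEquiv).symm
  haveI : FiniteDimensional K E1 :=
    Module.Finite.equiv (AlgEquiv.ofInjectiveField φ).toLinearEquiv
  haveI : FiniteDimensional K E2 :=
    Module.Finite.equiv (AlgEquiv.ofInjectiveField ψ).toLinearEquiv
  haveI : FiniteDimensional K E' := IntermediateField.finiteDimensional_sup E1 E2
  haveI : NumberField E' := {
    to_charZero := inferInstance
    to_finiteDimensional := Module.Finite.trans K E' }
  have hfr : Module.finrank K' E' ≤ Module.finrank K E := by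
    have h3 : Module.finrank K K' * Module.finrank K' E' = Module.finrank K E' :=
      Module.finrank_mul_finrank K K' E'
    have h4 : Module.finrank K E' ≤ Module.finrank K E1 * Module.finrank K E2 :=
      IntermediateField.finrank_sup_le E1 E2
    rw [e1, e2, ← h3] at h4
    exact Nat.le_of_mul_le_mul_left h4 Module.finrank_pos
  have hkf : ∀ z : E, aeval (k z) f = k (aeval z f) := by
    intro z
    apply Subtype.ext
    have h5 : ((aeval (k z) f : E') : Ω) = aeval ((k z : E') : Ω) f :=
      (aeval_algHom_apply E'.val (k z) f).symm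
    rw [h5]
    exact aeval_algHom_apply ψ z f
  have hkn : ∀ (n : ℕ) (z : E), (fun z : E' => aeval z f)^[n] (k z) =
      k ((fun z : E => aeval z f)^[n] z) := by
    intro n z
    exact (Function.Semiconj.iterate_right (f := k) (ga := fun z : E => aeval z f)
      (gb := fun z : E' => aeval z f) (fun z => (hkf z).symm) n z).symm
  have hL : ∀ w : E', j a * aeval w g + j b = aeval (j a * w + j b) f := by
    intro w
    have h6 := congrArg (aeval w) hg
    rw [map_add, map_mul, aeval_C, aeval_C, aeval_comp, map_add, map_mul, aeval_C, aeval_C,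
      aeval_X, aeval_map_algebraMap] at h6
    exact h6
  have hLn : ∀ (n : ℕ) (w : E'), j a * (fun z : E' => aeval z g)^[n] w + j b =
      (fun z : E' => aeval z f)^[n] (j a * w + j b) := by
    intro n w
    exact (Function.Semiconj.iterate_right (f := fun w : E' => j a * w + j b)
      (ga := fun z : E' => aeval z g) (gb := fun z : E' => aeval z f) (fun z => hL z) n w)
  have hja : j a ≠ 0 := (map_ne_zero j).mpr ha
  have hinv : ∀ z : E, j a * ((j a)⁻¹ * (k z - j b)) + j b = k z := by
    intro z
    rw [← mul_assoc, mul_inv_cancel₀ hja, one_mul, sub_add_cancel]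
  refine ⟨E', inferInstance, inferInstance, algK', (j a)⁻¹ * (k x - j b), (j a)⁻¹ * (k y - j b),
    ?_, ?_, hfr⟩
  · have h7 := hLn (N + 1) ((j a)⁻¹ * (k x - j b))
    have h8 := hLn (N + 1) ((j a)⁻¹ * (k y - j b))
    rw [hinv, hkn] at h7 h8
    rw [h1, ← h8] at h7
    exact mul_left_cancel₀ hja (add_right_cancel h7)
  · intro h
    have h7 := hLn N ((j a)⁻¹ * (k x - j b))
    have h8 := hLn N ((j a)⁻¹ * (k y - j b))
    rw [hinv, hkn] at h7 h8
    rw [h, h8] at h7
    exact h2 (k.injective h7).symm

/-- **Transfer.** -/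
theorem transfer.{u, v, w} {K : Type v} [Field K] [NumberField K] {K' : Type w} [Field K']
    [NumberField K'] [Algebra K K'] (f : K[X]) (g : K'[X]) (a b : K') (ha : a ≠ 0)
    (hg : C a * g + C b = (f.map (algebraMap K K')).comp (C a * X + C b))
    (hDB : ∃ C0 : ℕ, 0 < C0 ∧ ∀ (E : Type u) [Field E] [NumberField E] [Algebra K' E] (x y : E)
      (N : ℕ), (fun z : E => aeval z g)^[N + 1] x = (fun z : E => aeval z g)^[N + 1] y →
      (fun z : E => aeval z g)^[N] x ≠ (fun z : E => aeval z g)^[N] y →
      g.natDegree ^ N ≤ C0 * Module.finrank K' E) :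
    ∃ C0 : ℕ, 0 < C0 ∧ ∀ (E : Type u) [Field E] [NumberField E] [Algebra K E] (x y : E)
      (N : ℕ), (fun z : E => aeval z f)^[N + 1] x = (fun z : E => aeval z f)^[N + 1] y →
      (fun z : E => aeval z f)^[N] x ≠ (fun z : E => aeval z f)^[N] y →
      f.natDegree ^ N ≤ C0 * Module.finrank K E := by
  obtain ⟨C0, hC0, h⟩ := hDB
  have hdeg : g.natDegree = f.natDegree := by
    have h3 := congrArg natDegree hg
    rw [natDegree_add_C, natDegree_C_mul ha, natDegree_comp, natDegree_map, natDegree_add_C,
      natDegree_C_mul ha, natDegree_X, mul_one] at h3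
    exact h3
  refine ⟨C0, hC0, fun E _ _ _ x y N h1 h2 => ?_⟩
  obtain ⟨E', i1, i2, i3, x', y', g1, g2, g3⟩ := transfer_core f g a b ha hg E x y N h1 h2
  have h4 := h E' x' y' N g1 g2
  rw [hdeg] at h4
  exact h4.trans (Nat.mul_le_mul_left _ g3)

end Pool.Agent.UHG
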