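import Pool.Agent.UHG.Base

/-!
# The degree bound for an iterate gives the degree bound
-/

set_option autoImplicit false

universe u v

open NumberField Polynomial

namespace Pool.Agent.UHG

/-- The degree bound for an iterate implies the degree bound. -/
theorem DB.of_iter {K : Type v} [Field K] {f : K[X]} {m : ℕ} (hm : 0 < m)
    (hf : 1 ≤ f.natDegree) (h : DB.{u, v} (f.comp^[m] X)) : DB.{u, v} f := by
  obtain ⟨C0, hC0, hC⟩ := h
  refine ⟨f.natDegree ^ m * C0, by positivity, fun E _ _ _ x y N h1 h2 => ?_⟩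
  obtain ⟨k, hk1, hk2⟩ : ∃ k, m * k ≤ N ∧ N < m * k + m := by
    refine ⟨N / m, Nat.mul_div_le N m, ?_⟩
    have := Nat.lt_mul_div_succ N hm
    rw [Nat.mul_add, Nat.mul_one] at this
    exact this
  have h3 : (st (f.comp^[m] X))^[k + 1] x = (st (f.comp^[m] X))^[k + 1] y := by
    rw [st_iter, ← Function.iterate_mul]
    obtain ⟨r, hr⟩ : ∃ r, m * (k + 1) = r + (N + 1) := ⟨m * (k + 1) - (N + 1), by
      rw [Nat.mul_add, Nat.mul_one]; omega⟩
    rw [hr, Function.iterate_add_apply _ r (N + 1), Function.iterate_add_apply _ r (N + 1), h1]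
  have h4 : (st (f.comp^[m] X))^[k] x ≠ (st (f.comp^[m] X))^[k] y := by
    rw [st_iter, ← Function.iterate_mul]
    intro h5
    apply h2
    obtain ⟨r, hr⟩ : ∃ r, N = r + m * k := ⟨N - m * k, by omega⟩
    rw [hr, Function.iterate_add_apply, Function.iterate_add_apply, h5]
  have h6 := hC E x y k h3 h4
  rw [natDegree_iter] at h6
  calc f.natDegree ^ N ≤ f.natDegree ^ (m + m * k) := Nat.pow_le_pow_right hf (by omega)
    _ = f.natDegree ^ m * (f.natDegree ^ m) ^ k := by rw [pow_add, pow_mul]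
    _ ≤ f.natDegree ^ m * (C0 * Module.finrank K E) := Nat.mul_le_mul_left _ h6
    _ = f.natDegree ^ m * C0 * Module.finrank K E := by ring

end Pool.Agent.UHG
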