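import Pool.Agent.UHG.Two

/-!
# Interface: the step `z ↦ f(z)`, the degree bound `DB f`, iterates
-/

set_option autoImplicit false

universe u v

open NumberField Polynomial

namespace Pool.Agent.UHG

/-- `z ↦ f(z)` -/
noncomputable abbrev st {K A : Type*} [CommSemiring K] [Semiring A] [Algebra K A] (f : K[X]) : A → A :=
  fun z => aeval z f

theorem map_st {K A B : Type*} [CommSemiring K] [Semiring A] [Algebra K A] [Semiring B]
    [Algebra K B] (φ : A →ₐ[K] B) (f : K[X]) (x : A) : φ (st f x) = st f (φ x) :=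
  (Polynomial.aeval_algHom_apply φ x f).symm

theorem map_iter_st {K A B : Type*} [CommSemiring K] [Semiring A] [Algebra K A] [Semiring B]
    [Algebra K B] (φ : A →ₐ[K] B) (f : K[X]) (x : A) (n : ℕ) :
    φ ((st f)^[n] x) = (st f)^[n] (φ x) := by
  induction n generalizing x with
  | zero => rfl
  | succ n ih => rw [Function.iterate_succ_apply, Function.iterate_succ_apply, ih, map_st]

/-- The step of the `m`-th iterate. -/
theorem st_iter {K A : Type*} [CommSemiring K] [Semiring A] [Algebra K A] (f : K[X]) (m : ℕ) :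
    (st (f.comp^[m] X) : A → A) = (st f)^[m] := by
  induction m with
  | zero => funext z; simp [st]
  | succ m ih =>
    funext z
    rw [Function.iterate_succ_apply', Function.iterate_succ_apply', ← ih]
    simp only [st]
    rw [aeval_comp]

/-- **The degree bound**: a collision at exact time `N + 1` needs a field of degree at least
`d ^ N / C0`. -/
def DB {K : Type v} [Field K] (f : K[X]) : Prop :=
  ∃ C0 : ℕ, 0 < C0 ∧ ∀ (E : Type u) [Field E] [NumberField E] [Algebra K E] (x y : E) (N : ℕ),
    (st f)^[N + 1] x = (st f)^[N + 1] y → (st f)^[N] x ≠ (st f)^[N] y →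
      f.natDegree ^ N ≤ C0 * Module.finrank K E

theorem natDegree_iter {K : Type*} [Field K] (f : K[X]) (m : ℕ) :
    (f.comp^[m] X).natDegree = f.natDegree ^ m := by
  rw [natDegree_iterate_comp, natDegree_X, mul_one]

/-- The degree bound passes to the iterates. -/
theorem DB.iter {K : Type v} [Field K] {f : K[X]} (h : DB.{u, v} f) (hf : 1 ≤ f.natDegree)
    (m : ℕ) : DB.{u, v} (f.comp^[m] X) := by
  classical
  obtain ⟨C0, hC0, hC⟩ := h
  refine ⟨C0, hC0, fun E _ _ _ x y N h1 h2 => ?_⟩
  rw [natDegree_iter, ← pow_mul]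
  rw [st_iter, ← Function.iterate_mul] at h1
  rw [st_iter, ← Function.iterate_mul] at h2
  -- the exact time of the collision under `f`
  have hex : ∃ n, (st f)^[n] x = (st f)^[n] y := ⟨_, h1⟩
  set n := Nat.find hex with hn
  have hn1 := Nat.find_spec hex
  rw [← hn] at hn1
  have hlt : m * N < n := by
    by_contra hcon
    push Not at hcon
    apply h2
    obtain ⟨r, hr⟩ : ∃ r, m * N = r + n := ⟨m * N - n, by omega⟩
    rw [hr, Function.iterate_add_apply, Function.iterate_add_apply, hn1]
  obtain ⟨t, ht⟩ : ∃ t, n = t + 1 := ⟨n - 1, by omega⟩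
  have h3 : (st f)^[t] x ≠ (st f)^[t] y := Nat.find_min hex (by omega)
  rw [ht] at hn1
  exact (Nat.pow_le_pow_right hf (by omega)).trans (hC E x y t hn1 h3)

/-- **Collisions on a curve**, `DB` form. -/
theorem collisions_bounded' {K : Type v} [Field K] [NumberField K] {Ω : Type u} [Field Ω]
    [CharZero Ω] [Algebra K Ω] [IsAlgClosed Ω] [Algebra.IsAlgebraic ℚ Ω]
    [Algebra.IsAlgebraic K Ω] {F : Type*} [Field F] [Algebra K F] (f : K[X])
    (hd2 : 2 ≤ f.natDegree) (hDB : DB.{u, v} f) {ξ η : F}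
    (hη : IsIntegral (IntermediateField.adjoin K {ξ}) η) :
    ∃ B : ℝ, 0 ≤ B ∧ ∀ k : ℕ, (st f)^[k] ξ ≠ (st f)^[k] η →
      ∀ x y : Ω, UH.Spec K ξ η x y → (st f)^[k] x = (st f)^[k] y → absLogHeight₁ x ≤ B := by
  obtain ⟨C0, _, hC⟩ := hDB
  exact collisions_bounded f hd2 hC hη

end Pool.Agent.UHG
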