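import Pool.Agent.UHG.Transfer
import Pool.Agent.UHG.Base
import Pool.Agent.UHW.CollG
import Pool.Agent.UH2.GenPow

/-!
# The local inputs up to an affine conjugation over a finite extension

`K ⊆ K'` number fields, `f ∈ K[X]`, `g ∈ K'[X]` with `a g(w) + b = f(a w + b)`, `a ≠ 0`. If `g`
satisfies one of the three local conditions at a finite place `v'` of `K'`, then `f` satisfies the
degree bound `DB`. The condition on the critical points is stated for `f`, over `K`.
-/

set_option autoImplicit false

open IsDedekindDomain NumberField Polynomial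

namespace Pool.Agent.UHG

universe u v w

section conj

variable {K : Type v} [Field K] {K' : Type w} [Field K'] [Algebra K K'] {f : K[X]} {g : K'[X]}
  {a b : K'}

theorem conj_iter (hg : C a * g + C b = (f.map (algebraMap K K')).comp (C a * X + C b)) (n : ℕ) :
    C a * (g.comp^[n] X) + C b = ((f.comp^[n] X).map (algebraMap K K')).comp (C a * X + C b) := by
  induction n with
  | zero => simp
  | succ n ih =>
    rw [Function.iterate_succ_apply', Function.iterate_succ_apply', Polynomial.map_comp,
      comp_assoc, ← ih]
    have h := congrArg (fun P : K'[X] => P.comp (g.comp^[n] X)) hg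
    simp only [add_comp, mul_comp, C_comp, comp_assoc, X_comp] at h
    exact h

theorem conj_sub (hg : C a * g + C b = (f.map (algebraMap K K')).comp (C a * X + C b)) (n : ℕ) :
    C a * (g.comp^[n] X - X) = ((f.comp^[n] X - X).map (algebraMap K K')).comp (C a * X + C b) := by
  have h := conj_iter hg n
  rw [Polynomial.map_sub, sub_comp, ← h, map_X, X_comp]
  ring

theorem conj_derivative (ha : a ≠ 0)
    (hg : C a * g + C b = (f.map (algebraMap K K')).comp (C a * X + C b)) :
    derivative g = ((derivative f).map (algebraMap K K')).comp (C a * X + C b) := by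
  have h := congrArg derivative hg
  rw [derivative_add, derivative_C_mul, derivative_C, add_zero, derivative_comp, derivative_map,
    derivative_add, derivative_C_mul, derivative_X, derivative_C, mul_one, add_zero] at h
  exact mul_left_cancel₀ (C_ne_zero.mpr ha) h

theorem conj_coprime (ha : a ≠ 0)
    (hg : C a * g + C b = (f.map (algebraMap K K')).comp (C a * X + C b)) (n : ℕ)
    (h : IsCoprime (derivative f) (f.comp^[n] X - X)) :
    IsCoprime (derivative g) (g.comp^[n] X - X) := by
  have h1 := (h.map (mapRingHom (algebraMap K K'))).map (compRingHom (C a * X + C b))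
  simp only [coe_mapRingHom, coe_compRingHom_apply] at h1
  rw [← conj_derivative ha hg, ← conj_sub hg n] at h1
  exact h1.of_mul_right_right

end conj

variable {K : Type v} [Field K] [NumberField K] {K' : Type w} [Field K']
    [NumberField K'] [Algebra K K']

/-- `transfer` in terms of `DB`. -/
theorem DB.transfer (f : K[X]) (g : K'[X]) (a b : K') (ha : a ≠ 0)
    (hg : C a * g + C b = (f.map (algebraMap K K')).comp (C a * X + C b))
    (h : DB.{u, w} g) : DB.{u, v} f :=
  Pool.Agent.UHG.transfer f g a b ha hg h

/-- **Potentially purely inseparable good reduction** (place above `p`, degree `p ^ s`), no critical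
point of `f` periodic. -/
theorem DB.wild {p s : ℕ} (hp : p.Prime) (hs : 0 < s) (f : K[X]) (g : K'[X]) (a b : K')
    (ha : a ≠ 0) (hg : C a * g + C b = (f.map (algebraMap K K')).comp (C a * X + C b))
    (v : HeightOneSpectrum (𝓞 K')) (hv : v.valuation K' (p : K') < 1)
    (hdeg : f.natDegree = p ^ s) (hlead : v.valuation K' (g.coeff (p ^ s)) = 1)
    (hmid : ∀ i, 0 < i → i < p ^ s → v.valuation K' (g.coeff i) < 1)
    (hconst : v.valuation K' (g.coeff 0) ≤ 1)
    (hcrit : ∀ n, 0 < n → IsCoprime (derivative f) (f.comp^[n] X - X)) : DB.{u, v} f := by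
  have hd : g.natDegree = f.natDegree := by
    have h3 := congrArg natDegree hg
    rw [natDegree_add_C, natDegree_C_mul ha, natDegree_comp, natDegree_map, natDegree_add_C,
      natDegree_C_mul ha, natDegree_X, mul_one] at h3
    exact h3
  exact DB.transfer f g a b ha hg (UHW.collision_good hp hs g v hv (hd.trans hdeg) hlead hmid hconst
    (fun n hn => conj_coprime ha hg n (hcrit n hn)))

/-- **Potentially `a X ^ q` reduction** at a place not above `p`, degree `q = p ^ s`, no
superattracting fixed point. -/
theorem DB.pow {p s : ℕ} (hp : p.Prime) (hs : 0 < s) (f : K[X]) (g : K'[X]) (a b : K')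
    (ha : a ≠ 0) (hg : C a * g + C b = (f.map (algebraMap K K')).comp (C a * X + C b))
    (hdeg : f.natDegree = p ^ s)
    (v : HeightOneSpectrum (𝓞 K')) (hv : v.valuation K' (p : K') = 1)
    (hlead : v.valuation K' g.leadingCoeff = 1)
    (hlow : ∀ i < p ^ s, v.valuation K' (g.coeff i) < 1)
    (hcrit : IsCoprime (f - X) f.derivative) : DB.{u, v} f := by
  have hd : g.natDegree = f.natDegree := by
    have h3 := congrArg natDegree hg
    rw [natDegree_add_C, natDegree_C_mul ha, natDegree_comp, natDegree_map, natDegree_add_C,
      natDegree_C_mul ha, natDegree_X, mul_one] at h3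
    exact h3
  refine DB.transfer f g a b ha hg (UH2.collision_pow hp hs g (hd.trans hdeg) v hv hlead hlow ?_)
  have h1 := conj_coprime ha hg 1 (by simpa using hcrit.symm)
  simpa using h1.symm

/-- **Potentially Chebyshev reduction** at a place not above `p`, degree `p ^ s`. -/
theorem DB.dick {p s : ℕ} (hp : p.Prime) (hs : 0 < s) (f : K[X]) (g : K'[X]) (a b : K')
    (ha : a ≠ 0) (hg : C a * g + C b = (f.map (algebraMap K K')).comp (C a * X + C b))
    (hdeg : f.natDegree = p ^ s)
    (v : HeightOneSpectrum (𝓞 K')) (hv : v.valuation K' (p : K') = 1)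
    (hco : ∀ i, v.valuation K' (g.coeff i - (dickson 1 (1 : K') (p ^ s)).coeff i) < 1) :
    DB.{u, v} f := by
  have hd : g.natDegree = f.natDegree := by
    have h3 := congrArg natDegree hg
    rw [natDegree_add_C, natDegree_C_mul ha, natDegree_comp, natDegree_map, natDegree_add_C,
      natDegree_C_mul ha, natDegree_X, mul_one] at h3
    exact h3
  exact DB.transfer f g a b ha hg (UH2.collision_dick hp hs g (hd.trans hdeg) v hv hco)

end Pool.Agent.UHG
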