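import Pool.Agent.UHG.Base

/-!
# The degree bound over a larger number field
-/

set_option autoImplicit false

universe u v w

open NumberField Polynomial

namespace Pool.Agent.UHG

/-- The degree bound passes to a larger number field. -/
theorem DB.map {K : Type v} [Field K] [NumberField K] {f : K[X]} (h : DB.{u, v} f)
    (L : Type w) [Field L] [NumberField L] [Algebra K L] :
    DB.{u, w} (f.map (algebraMap K L)) := by
  obtain ⟨C0, hC0, hC⟩ := h
  have hfd : FiniteDimensional K L := Module.Finite.of_restrictScalars_finite ℚ K L
  have hpos : 0 < Module.finrank K L := Module.finrank_pos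
  refine ⟨C0 * Module.finrank K L, by positivity, fun E _ _ _ x y N h1 h2 => ?_⟩
  let iKE : Algebra K E := ((algebraMap L E).comp (algebraMap K L)).toAlgebra
  have hT : IsScalarTower K L E := IsScalarTower.of_algebraMap_eq fun _ => rfl
  have hfdE : FiniteDimensional L E := Module.Finite.of_restrictScalars_finite ℚ L E
  have hst : (st (f.map (algebraMap K L)) : E → E) = st f := by
    funext z
    simp only [st]
    rw [aeval_map_algebraMap]
  rw [hst] at h1 h2
  have h3 := hC E x y N h1 h2
  rw [natDegree_map]
  rw [← Module.finrank_mul_finrank K L E] at h3
  calc f.natDegree ^ N ≤ C0 * (Module.finrank K L * Module.finrank L E) := h3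
    _ = C0 * Module.finrank K L * Module.finrank L E := by ring

end Pool.Agent.UHG
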