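import Pool.Agent.UHG.Step

/-!
# Polynomials commuting with `F`: uniform height comparison and finiteness
-/

set_option autoImplicit false

open NumberField Height Polynomial Filter

namespace Pool.Agent.UHG

open Pool.Agent.UH (abs_nonneg)

theorem st_comm {K A : Type*} [Field K] [CommRing A] [Algebra K A] {F g : K[X]}
    (h : g.comp F = F.comp g) (x : A) : st g (st F x) = st F (st g x) := by
  simp only [st]
  rw [← aeval_comp, ← aeval_comp, h]

theorem st_comm_iter {K A : Type*} [Field K] [CommRing A] [Algebra K A] {F g : K[X]}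
    (h : g.comp F = F.comp g) (x : A) (n : ℕ) : st g ((st F)^[n] x) = (st F)^[n] (st g x) := by
  induction n generalizing x with
  | zero => rfl
  | succ n ih =>
    rw [Function.iterate_succ_apply, Function.iterate_succ_apply, ih, st_comm h]

section
variable {Ω : Type*} [Field Ω] [CharZero Ω] [Algebra.IsAlgebraic ℚ Ω]

/-- If `C ≤ q ^ n * a` for all `n`, up to a bounded error, then `0 ≤ a`. -/
theorem limit_le {q a c : ℝ} (hq : 2 ≤ q) (h : ∀ n : ℕ, 0 ≤ q ^ n * a + c) : 0 ≤ a := by
  by_contra hcon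
  push Not at hcon
  obtain ⟨n, hn⟩ := pow_unbounded_of_one_lt (c / (-a) + 1) (show (1 : ℝ) < q by linarith)
  have h1 := h n
  have hpos : 0 < -a := by linarith
  have h2 : (c / (-a) + 1) * (-a) < q ^ n * (-a) := mul_lt_mul_of_pos_right hn hpos
  have h3 : (c / (-a) + 1) * (-a) = c + -a := by
    rw [add_mul, div_mul_cancel₀ _ hpos.ne', one_mul]
  linarith

/-- **Uniform height comparison** for all polynomials commuting with `F`. -/
theorem comm_height {K : Type*} [Field K] [Algebra K Ω] (F : K[X]) (hF : 2 ≤ F.natDegree) :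
    ∃ δ : ℝ, 0 ≤ δ ∧ ∀ g : K[X], 1 ≤ g.natDegree → g.comp F = F.comp g → ∀ x : Ω,
      absLogHeight₁ (st g x) ≤ g.natDegree * absLogHeight₁ x + (g.natDegree + 1) * δ ∧
      g.natDegree * absLogHeight₁ x ≤ absLogHeight₁ (st g x) + (g.natDegree + 1) * δ := by
  obtain ⟨δ, hδ0, hδ⟩ := iter_height (Ω := Ω) F hF
  refine ⟨δ, hδ0, fun g hg hcomm x => ?_⟩
  obtain ⟨ε, hε0, hε⟩ := step_height (Ω := Ω) g hg
  have hq : (2 : ℝ) ≤ F.natDegree := by exact_mod_cast hF
  set q : ℝ := (F.natDegree : ℝ) with hqdef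
  set D : ℝ := (g.natDegree : ℝ) with hD
  have hD0 : 0 ≤ D := Nat.cast_nonneg _
  constructor
  · have key : 0 ≤ (D * absLogHeight₁ x + (D + 1) * δ) - absLogHeight₁ (st g x) := by
      refine limit_le (q := q) (c := ε) hq fun n => ?_
      have h1 := (hδ (st g x) n).2
      have h2 := (hδ x n).1
      have h3 := (hε ((st F)^[n] x)).1
      rw [st_comm_iter hcomm] at h3
      have h4 := mul_le_mul_of_nonneg_left h2 hD0
      have hqn : 0 < q ^ n := by positivity
      nlinarith
    linarith
  · have key : 0 ≤ (absLogHeight₁ (st g x) + (D + 1) * δ) - D * absLogHeight₁ x := by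
      refine limit_le (q := q) (c := ε) hq fun n => ?_
      have h1 := (hδ (st g x) n).1
      have h2 := (hδ x n).2
      have h3 := (hε ((st F)^[n] x)).2
      rw [st_comm_iter hcomm] at h3
      have h4 := mul_le_mul_of_nonneg_left h2 hD0
      have hqn : 0 < q ^ n := by positivity
      nlinarith
    linarith

end

section
variable {K : Type*} [Field K] [CharZero K]

/-- The difference quotient of `F` at two polynomials. -/
noncomputable def dq (F g h : K[X]) : K[X] :=
  ∑ i ∈ Finset.range (F.natDegree + 1), C (F.coeff i) *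
    ∑ j ∈ Finset.range i, g ^ j * h ^ (i - 1 - j)

omit [CharZero K] in
theorem dq_mul (F g h : K[X]) : dq F g h * (g - h) = F.comp g - F.comp h := by
  have h1 : ∀ p : K[X], F.comp p = ∑ i ∈ Finset.range (F.natDegree + 1), C (F.coeff i) * p ^ i :=
    fun p => by rw [comp, eval₂_eq_sum_range]
  rw [h1 g, h1 h, dq, Finset.sum_mul, ← Finset.sum_sub_distrib]
  refine Finset.sum_congr rfl fun i _ => ?_
  rw [mul_assoc, ← mul_sub, Commute.geom_sum₂_mul (Commute.all g h)]

omit [CharZero K] in
theorem dq_coeff {F g h : K[X]} {D : ℕ} (hF : 1 ≤ F.natDegree) (hg : g.natDegree ≤ D)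
    (hh : h.natDegree ≤ D) (hD : 1 ≤ D) (heq : g.coeff D = h.coeff D) :
    (dq F g h).coeff ((F.natDegree - 1) * D) =
      F.leadingCoeff * (F.natDegree * g.coeff D ^ (F.natDegree - 1)) := by
  have hterm : ∀ i j : ℕ, j < i → (g ^ j * h ^ (i - 1 - j)).natDegree ≤ (i - 1) * D := by
    intro i j hj
    refine natDegree_mul_le.trans ?_
    have h1 : (g ^ j).natDegree ≤ j * D := natDegree_pow_le.trans (Nat.mul_le_mul_left _ hg)
    have h2 : (h ^ (i - 1 - j)).natDegree ≤ (i - 1 - j) * D :=
      natDegree_pow_le.trans (Nat.mul_le_mul_left _ hh)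
    have h3 : j * D + (i - 1 - j) * D = (i - 1) * D := by
      rw [← add_mul]; congr 1; omega
    omega
  rw [dq, finsetSum_coeff, Finset.sum_range_succ, Finset.sum_eq_zero, zero_add]
  · rw [coeff_C_mul, finsetSum_coeff]
    have h1 : ∀ j ∈ Finset.range F.natDegree,
        (g ^ j * h ^ (F.natDegree - 1 - j)).coeff ((F.natDegree - 1) * D) =
          g.coeff D ^ (F.natDegree - 1) := by
      intro j hj
      have hj' := Finset.mem_range.mp hj
      have e : (F.natDegree - 1) * D = j * D + (F.natDegree - 1 - j) * D := by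
        rw [← add_mul]; congr 1; omega
      have h2 : (g ^ j).natDegree ≤ j * D := natDegree_pow_le.trans (Nat.mul_le_mul_left _ hg)
      have h3 : (h ^ (F.natDegree - 1 - j)).natDegree ≤ (F.natDegree - 1 - j) * D :=
        natDegree_pow_le.trans (Nat.mul_le_mul_left _ hh)
      rw [e, coeff_mul_add_eq_of_natDegree_le h2 h3, coeff_pow_of_natDegree_le hg,
        coeff_pow_of_natDegree_le hh, ← heq, ← pow_add]
      congr 1; omega
    rw [Finset.sum_congr rfl h1, Finset.sum_const, Finset.card_range, nsmul_eq_mul]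
    rfl
  · intro i hi
    have hi' := Finset.mem_range.mp hi
    rw [coeff_C_mul, finsetSum_coeff, Finset.sum_eq_zero, mul_zero]
    intro j hj
    have hj' := Finset.mem_range.mp hj
    refine coeff_eq_zero_of_natDegree_lt (lt_of_le_of_lt (hterm i j hj') ?_)
    exact Nat.mul_lt_mul_of_pos_right (by omega) (by omega)

/-- Two polynomials commuting with `F`, of the same degree and leading coefficient, are equal. -/
theorem comm_unique {F g h : K[X]} (hF : 2 ≤ F.natDegree) (hg : 1 ≤ g.natDegree)
    (hgh : h.natDegree = g.natDegree) (hlc : g.leadingCoeff = h.leadingCoeff)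
    (h1 : g.comp F = F.comp g) (h2 : h.comp F = F.comp h) : g = h := by
  by_contra hne
  have hr : g - h ≠ 0 := sub_ne_zero.mpr hne
  set D := g.natDegree with hD
  have hlc' : g.coeff D = h.coeff D := by
    have : h.leadingCoeff = h.coeff D := by rw [leadingCoeff, hgh]
    rw [← this, ← hlc]; rfl
  have hg0 : g.coeff D ≠ 0 := by
    intro h0
    have : g.leadingCoeff = 0 := h0
    rw [leadingCoeff_eq_zero] at this
    rw [hD, this, natDegree_zero] at hg
    omega
  have hrD : (g - h).natDegree < D := by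
    have hle : (g - h).natDegree ≤ D := by
      refine (natDegree_sub_le _ _).trans ?_
      rw [hgh]
      simp [hD]
    refine lt_of_le_of_ne hle fun heq => ?_
    have h3 : (g - h).coeff D = 0 := by rw [coeff_sub, hlc', sub_self]
    rw [← heq] at h3
    exact hr (leadingCoeff_eq_zero.mp h3)
  have hFlc : F.leadingCoeff ≠ 0 := by
    intro h0
    rw [leadingCoeff_eq_zero] at h0
    rw [h0, natDegree_zero] at hF
    omega
  have hcoef := dq_coeff (F := F) (g := g) (h := h) (by omega) le_rfl hgh.le hg hlc'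
  have hcoef0 : (dq F g h).coeff ((F.natDegree - 1) * D) ≠ 0 := by
    rw [hcoef]
    refine mul_ne_zero hFlc (mul_ne_zero ?_ (pow_ne_zero _ hg0))
    exact_mod_cast (show F.natDegree ≠ 0 by omega)
  have hdq : (F.natDegree - 1) * D ≤ (dq F g h).natDegree := le_natDegree_of_ne_zero hcoef0
  have hdq0 : dq F g h ≠ 0 := by
    intro h0
    rw [h0, coeff_zero] at hcoef0
    exact hcoef0 rfl
  have e1 : (g - h).comp F = dq F g h * (g - h) := by
    rw [dq_mul, sub_comp, h1, h2]
  have e2 := congrArg natDegree e1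
  rw [natDegree_comp, natDegree_mul hdq0 hr] at e2
  have e3 : (g - h).natDegree * F.natDegree =
      (g - h).natDegree * (F.natDegree - 1) + (g - h).natDegree := by
    obtain ⟨t, ht⟩ : ∃ t, F.natDegree = t + 1 := ⟨F.natDegree - 1, by omega⟩
    rw [ht, Nat.add_sub_cancel, Nat.mul_succ]
  have e4 : (F.natDegree - 1) * D ≤ (g - h).natDegree * (F.natDegree - 1) := by omega
  rw [mul_comm] at e4
  have e5 := Nat.le_of_mul_le_mul_right e4 (by omega)
  omega

/-- **Finiteness**: for each degree only finitely many polynomials commute with `F`. -/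
theorem comm_finite {F : K[X]} (hF : 2 ≤ F.natDegree) (D : ℕ) (hD : 1 ≤ D) :
    {g : K[X] | g.natDegree = D ∧ g.comp F = F.comp g}.Finite := by
  classical
  have hFlc : F.leadingCoeff ≠ 0 := by
    intro h0
    rw [leadingCoeff_eq_zero] at h0
    rw [h0, natDegree_zero] at hF
    omega
  refine Set.Finite.of_finite_image (f := leadingCoeff) ?_ ?_
  · -- the leading coefficients
    set P : K[X] := X ^ (F.natDegree - 1) - C (F.leadingCoeff ^ (D - 1)) with hP
    have hP0 : P ≠ 0 := X_pow_sub_C_ne_zero (by omega) _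
    refine (P.roots.toFinset.finite_toSet).subset ?_
    rintro b ⟨g, ⟨hgD, hg⟩, rfl⟩
    rw [Finset.mem_coe, Multiset.mem_toFinset, mem_roots hP0, IsRoot.def, hP, eval_sub, eval_pow,
      eval_X, eval_C, sub_eq_zero]
    have hg0 : g.leadingCoeff ≠ 0 := by
      intro h0
      rw [leadingCoeff_eq_zero] at h0
      rw [h0, natDegree_zero] at hgD
      omega
    have h1 := congrArg leadingCoeff hg
    rw [leadingCoeff_comp (by omega), leadingCoeff_comp (by omega), hgD] at h1
    obtain ⟨t, ht⟩ : ∃ t, F.natDegree = t + 1 := ⟨F.natDegree - 1, by omega⟩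
    obtain ⟨r, hr⟩ : ∃ r, D = r + 1 := ⟨D - 1, by omega⟩
    rw [ht, hr, pow_succ, pow_succ] at h1
    rw [ht, hr, Nat.add_sub_cancel, Nat.add_sub_cancel]
    have h2 : g.leadingCoeff * F.leadingCoeff * (F.leadingCoeff ^ r - g.leadingCoeff ^ t) = 0 := by
      linear_combination h1
    have h3 := (mul_eq_zero.mp h2).resolve_left (mul_ne_zero hg0 hFlc)
    exact (sub_eq_zero.mp h3).symm
  · rintro g ⟨hgD, hg⟩ h ⟨hhD, hh⟩ heq
    exact comm_unique hF (by omega) (by rw [hgD, hhD]) heq hg hh

/-- Finitely many of bounded degree. -/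
theorem comm_finite_le {F : K[X]} (hF : 2 ≤ F.natDegree) (D : ℕ) :
    {g : K[X] | 1 ≤ g.natDegree ∧ g.natDegree ≤ D ∧ g.comp F = F.comp g}.Finite := by
  refine (Set.Finite.biUnion (Set.finite_Icc 1 D) fun e he =>
    comm_finite hF e (Set.mem_Icc.mp he).1).subset ?_
  rintro g ⟨h1, h2, h3⟩
  simp only [Set.mem_iUnion, Set.mem_Icc]
  exact ⟨g.natDegree, ⟨h1, h2⟩, rfl, h3⟩

end

end Pool.Agent.UHG
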