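import Pool.Agent.UHG.Main
import Pool.Agent.UHG.BaseChange

/-!
# The height bound, over all number fields containing the field of definition
-/

set_option autoImplicit false

universe u

open NumberField Polynomial IsDedekindDomain

namespace Pool.Agent.UHG

/-- For every number field `L` containing `K` and every non-vertical curve over `L` there is one
height bound for all the points of the curve on the hypersurfaces `x_i = ζ`, `f^k(ζ)` periodic,
and `f^k(x_i) = g(f^k(x_j))`, `g ∈ L[X]` commuting with `f^m`, for all the `k` and all the `g`, as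
long as the hypersurface does not contain the curve. -/
def HeightBound {K : Type u} [Field K] [NumberField K] (f : K[X]) : Prop :=
  ∀ (L : Type u) [Field L] [NumberField L] [Algebra K L] (m : ℕ), 0 < m →
    ∀ (n : ℕ) (I : Ideal (MvPolynomial (Fin n) L)), IsNonverticalCurve I →
      ∃ B : ℝ, ∀ k : ℕ, ∀ V ∈ hyp (f.map (algebraMap K L)) m n k, ¬ points I ⊆ V →
        ∀ P ∈ points I ∩ V, ∑ i, absLogHeight₁ (P i) ≤ B

/-- `f` and `g` are conjugate by an affine map over `K`. -/
def Conj {K : Type u} [Field K] (f g : K[X]) : Prop :=
  ∃ a b : K, a ≠ 0 ∧ C a * g + C b = f.comp (C a * X + C b)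

theorem heightBound_of_DB {K : Type u} [Field K] [NumberField K] (f : K[X])
    (hf : 2 ≤ f.natDegree) (hDB : DB.{u, u} f) : HeightBound f :=
  fun L _ _ _ m hm n I hI => main (f.map (algebraMap K L)) (by rw [natDegree_map]; exact hf)
    (hDB.map L) m hm n I hI

end Pool.Agent.UHG
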