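import Pool.Agent.UH.Cmp
import Pool.Agent.UHG.Comm

/-!
# The engine: bounded height on curves for every polynomial with the degree bound

`f ∈ K[X]` of degree `≥ 2` with `DB f`. One height bound for all points of a non-vertical curve on
all the hypersurfaces `x_i = ζ` (`ζ` preperiodic) and `f^k(x_i) = g(f^k(x_j))` (`g` commuting with
a fixed iterate `f^m`) that do not contain the curve.
-/

set_option autoImplicit false

universe u

open NumberField Polynomial

namespace Pool.Agent.UHG

open Pool.Agent.UH (Spec compare integral_of_relation abs_nonneg)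

/-- The prime ideal `I` of `K[X_1, ..., X_n]` defines a non-vertical curve: every coordinate
function is transcendental over `K`, and any two are algebraically dependent, on the zero
locus of `I`. -/
structure IsNonverticalCurve {K : Type*} [Field K] {n : ℕ} (I : Ideal (MvPolynomial (Fin n) K)) :
    Prop where
  /-- irreducibility -/
  prime : I.IsPrime
  /-- every coordinate is nonconstant -/
  nonvertical : ∀ (i : Fin n) (g : Polynomial K), g ≠ 0 →
    Polynomial.aeval (MvPolynomial.X i : MvPolynomial (Fin n) K) g ∉ I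
  /-- the dimension is one -/
  dim_one : ∀ i j : Fin n, ∃ H : MvPolynomial (Fin 2) K, H ≠ 0 ∧
    MvPolynomial.aeval ![(MvPolynomial.X i : MvPolynomial (Fin n) K), MvPolynomial.X j] H ∈ I

/-- The points of the curve over an algebraic closure of `K`. -/
def points {K : Type*} [Field K] {n : ℕ} (I : Ideal (MvPolynomial (Fin n) K)) :
    Set (Fin n → AlgebraicClosure K) :=
  {P | ∀ H ∈ I, MvPolynomial.aeval P H = 0}

/-- The hypersurfaces of level `k` (possibly reducible): `x_i = ζ` with `f^k(ζ)` periodic, and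
`f^k(x_i) = g(f^k(x_j))` with `i ≠ j` and `g ∈ K[X]` nonconstant, commuting with `f^m`. -/
def hyp {K : Type*} [Field K] (f : K[X]) (m n k : ℕ) : Set (Set (Fin n → AlgebraicClosure K)) :=
  {V | (∃ (i : Fin n) (ζ : AlgebraicClosure K),
        (∃ r : ℕ, 0 < r ∧ (fun z => aeval z f)^[k + r] ζ = (fun z => aeval z f)^[k] ζ) ∧
          V = {P | P i = ζ}) ∨
      ∃ (i j : Fin n) (g : K[X]), i ≠ j ∧ 1 ≤ g.natDegree ∧
        g.comp (f.comp^[m] X) = (f.comp^[m] X).comp g ∧
        V = {P | (fun z => aeval z f)^[k] (P i) = aeval ((fun z => aeval z f)^[k] (P j)) g}}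

section aux

variable {K : Type u} [Field K] {n : ℕ} {I : Ideal (MvPolynomial (Fin n) K)}

/-- the generic point -/
noncomputable def genHom (I : Ideal (MvPolynomial (Fin n) K)) [I.IsPrime] :
    MvPolynomial (Fin n) K →ₐ[K] FractionRing (MvPolynomial (Fin n) K ⧸ I) :=
  (IsScalarTower.toAlgHom K (MvPolynomial (Fin n) K ⧸ I)
    (FractionRing (MvPolynomial (Fin n) K ⧸ I))).comp (Ideal.Quotient.mkₐ K I)

theorem genHom_eq_zero [I.IsPrime] {a : MvPolynomial (Fin n) K} (h : genHom I a = 0) : a ∈ I := by
  rw [← Ideal.Quotient.eq_zero_iff_mem]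
  exact IsFractionRing.injective (MvPolynomial (Fin n) K ⧸ I)
    (FractionRing (MvPolynomial (Fin n) K ⧸ I)) (by rw [map_zero]; exact h)

theorem genHom_of_mem [I.IsPrime] {a : MvPolynomial (Fin n) K} (h : a ∈ I) : genHom I a = 0 := by
  have h1 : Ideal.Quotient.mk I a = 0 := Ideal.Quotient.eq_zero_iff_mem.mpr h
  exact (congrArg (algebraMap _ (FractionRing (MvPolynomial (Fin n) K ⧸ I))) h1).trans
    (map_zero _)

theorem aeval_pair {A B : Type*} [CommRing A] [Algebra K A] [CommRing B] [Algebra K B]
    (φ : A →ₐ[K] B) (a b : A) (H : MvPolynomial (Fin 2) K) :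
    MvPolynomial.aeval ![φ a, φ b] H = φ (MvPolynomial.aeval ![a, b] H) := by
  have : (MvPolynomial.aeval ![φ a, φ b] : MvPolynomial (Fin 2) K →ₐ[K] B) =
      φ.comp (MvPolynomial.aeval ![a, b]) := by
    apply MvPolynomial.algHom_ext
    intro i
    fin_cases i <;> simp
  rw [this]; rfl

/-- Specialisations of the generic point. -/
theorem spec_of [I.IsPrime] {P : Fin n → AlgebraicClosure K} (hP : P ∈ points I)
    (a b : MvPolynomial (Fin n) K) :
    Spec K (genHom I a) (genHom I b) (MvPolynomial.aeval P a) (MvPolynomial.aeval P b) := by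
  intro H hH
  rw [aeval_pair (genHom I)] at hH
  rw [aeval_pair (MvPolynomial.aeval P)]
  exact hP _ (genHom_eq_zero hH)

theorem gen_transcendental [I.IsPrime] (hI : IsNonverticalCurve I) (i : Fin n) :
    Transcendental K (genHom I (MvPolynomial.X i)) := by
  rintro ⟨g, hg0, hg⟩
  apply hI.nonvertical i g hg0
  apply genHom_eq_zero
  rw [← hg]
  exact (Polynomial.aeval_algHom_apply (genHom I) (MvPolynomial.X i) g).symm

theorem gen_integral [I.IsPrime] (hI : IsNonverticalCurve I) (i j : Fin n) :
    IsIntegral (IntermediateField.adjoin K {genHom I (MvPolynomial.X i)})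
      (genHom I (MvPolynomial.X j)) := by
  obtain ⟨H, hH0, hH⟩ := hI.dim_one j i
  refine integral_of_relation (gen_transcendental hI i) H hH0 ?_
  rw [aeval_pair (genHom I)]
  exact genHom_of_mem hH

/-- Integrality of polynomial expressions over `K(f^u(x))`. -/
theorem integral_expr {F : Type*} [Field F] [Algebra K F] {x y : F}
    (hy : IsIntegral (IntermediateField.adjoin K {x}) y) (f g : K[X]) (hf : 1 ≤ f.natDegree)
    (r : ℕ) : IsIntegral (IntermediateField.adjoin K {(st f)^[r] x}) (st g ((st f)^[r] y)) := by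
  set ξ := (st f)^[r] x with hξ
  set k0 := IntermediateField.adjoin K {ξ} with hk0
  set A := algebraicClosure k0 F with hA
  set AK := A.restrictScalars K with hAK
  -- `x` is algebraic over `k0`
  have hx : IsAlgebraic k0 x := by
    set ξ0 : k0 := IntermediateField.AdjoinSimple.gen K ξ with hξ0
    set q : k0[X] := (f.comp^[r] X).map (algebraMap K k0) - C ξ0 with hq
    have hdeg : q.natDegree = f.natDegree ^ r := by
      rw [hq, natDegree_sub_C, natDegree_map, natDegree_iter]
    have hq0 : q ≠ 0 := by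
      intro h0
      rw [h0, natDegree_zero] at hdeg
      have : 1 ≤ f.natDegree ^ r := Nat.one_le_pow _ _ hf
      omega
    refine ⟨q, hq0, ?_⟩
    rw [hq, map_sub, aeval_C, aeval_map_algebraMap]
    have h1 : aeval x (f.comp^[r] X) = ξ := by
      have := congrFun (st_iter (A := F) f r) x
      rw [hξ, ← this]
    rw [h1]
    exact sub_self _
  have hxA : x ∈ AK := by
    rw [hAK, IntermediateField.mem_restrictScalars]
    exact (mem_algebraicClosure_iff).mpr hx
  have hle : IntermediateField.adjoin K {x} ≤ AK :=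
    (IntermediateField.adjoin_simple_le_iff).mpr hxA
  -- `y` is algebraic over `k0`
  have hyA : y ∈ AK := by
    rw [hAK, IntermediateField.mem_restrictScalars]
    refine (mem_algebraicClosure_iff).mpr ?_
    have h1 : IsIntegral A y := by
      obtain ⟨p, hp, hpy⟩ := hy
      set φ : IntermediateField.adjoin K {x} →+* A :=
        { toFun := fun a => ⟨a, hle a.2⟩
          map_one' := rfl
          map_mul' := fun _ _ => rfl
          map_zero' := rfl
          map_add' := fun _ _ => rfl } with hφ
      refine ⟨p.map φ, hp.map φ, ?_⟩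
      rw [eval₂_map]
      exact hpy
    exact (h1.isAlgebraic).restrictScalars k0
  have hst : ∀ (h : K[X]) (z : F), z ∈ AK → st h z ∈ AK := by
    intro h z hz
    have := map_st AK.val h ⟨z, hz⟩
    have h2 : st h z = AK.val (st h (⟨z, hz⟩ : AK)) := this.symm
    rw [h2]
    exact (st h (⟨z, hz⟩ : AK)).2
  have hit : ∀ (s : ℕ) (z : F), z ∈ AK → (st f)^[s] z ∈ AK := by
    intro s
    induction s with
    | zero => intro z hz; exact hz
    | succ s ih =>
      intro z hz
      rw [Function.iterate_succ_apply]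
      exact ih _ (hst f z hz)
  have hfin : st g ((st f)^[r] y) ∈ AK := hst g _ (hit r y hyA)
  rw [hAK, IntermediateField.mem_restrictScalars] at hfin
  exact ((mem_algebraicClosure_iff).mp hfin).isIntegral

end aux

/-- **The engine.** -/
theorem main {K : Type u} [Field K] [NumberField K] (f : K[X]) (hf : 2 ≤ f.natDegree)
    (hDB : DB.{u, u} f) (m : ℕ) (hm : 0 < m) (n : ℕ) (I : Ideal (MvPolynomial (Fin n) K))
    (hI : IsNonverticalCurve I) :
    ∃ B : ℝ, ∀ k : ℕ, ∀ V ∈ hyp f m n k, ¬ points I ⊆ V → ∀ P ∈ points I ∩ V,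
      ∑ i, absLogHeight₁ (P i) ≤ B := by
  classical
  have hprime := hI.prime
  have halg : Algebra.IsAlgebraic ℚ (AlgebraicClosure K) := Algebra.IsAlgebraic.trans ℚ K _
  set F := f.comp^[m] X with hFdef
  have hFdeg : F.natDegree = f.natDegree ^ m := natDegree_iter f m
  have hF2 : 2 ≤ F.natDegree := by
    rw [hFdeg]
    calc 2 ≤ f.natDegree := hf
      _ = f.natDegree ^ 1 := (pow_one _).symm
      _ ≤ f.natDegree ^ m := Nat.pow_le_pow_right (by omega) hm
  have hDBF : DB.{u, u} F := hDB.iter (by omega) m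
  have hq2 : (2 : ℝ) ≤ f.natDegree := by exact_mod_cast hf
  set q : ℝ := (f.natDegree : ℝ) with hq
  obtain ⟨δ, hδ0, hδ⟩ := iter_height (Ω := AlgebraicClosure K) f hf
  obtain ⟨ε, hε0, hε⟩ := comm_height (Ω := AlgebraicClosure K) F hF2
  -- comparison of the coordinates
  have hcmp : ∀ i j : Fin n, ∃ A B : ℝ, 0 ≤ A ∧ 0 ≤ B ∧ ∀ x y : AlgebraicClosure K,
      Spec K (genHom I (MvPolynomial.X i)) (genHom I (MvPolynomial.X j)) x y →
      absLogHeight₁ y ≤ A * absLogHeight₁ x + B := fun i j =>
    compare (gen_transcendental hI i) (gen_integral hI i j)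
  choose A B hA hB hAB using hcmp
  set A0 := ∑ i, ∑ j, A i j with hA0
  set B0 := ∑ i, ∑ j, B i j with hB0
  have hA00 : 0 ≤ A0 := Finset.sum_nonneg fun i _ => Finset.sum_nonneg fun j _ => hA i j
  have hB00 : 0 ≤ B0 := Finset.sum_nonneg fun i _ => Finset.sum_nonneg fun j _ => hB i j
  have hcmp' : ∀ P ∈ points I, ∀ i j : Fin n,
      absLogHeight₁ (P j) ≤ A0 * absLogHeight₁ (P i) + B0 := by
    intro P hP i j
    have h1 := spec_of hP (MvPolynomial.X i) (MvPolynomial.X j)
    rw [MvPolynomial.aeval_X, MvPolynomial.aeval_X] at h1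
    have h2 := hAB i j _ _ h1
    have h3 : A i j ≤ A0 := (Finset.single_le_sum (f := A i) (fun j _ => hA i j)
      (Finset.mem_univ j)).trans (Finset.single_le_sum (f := fun i => ∑ j, A i j)
      (fun i _ => Finset.sum_nonneg fun j _ => hA i j) (Finset.mem_univ i))
    have h4 : B i j ≤ B0 := (Finset.single_le_sum (f := B i) (fun j _ => hB i j)
      (Finset.mem_univ j)).trans (Finset.single_le_sum (f := fun i => ∑ j, B i j)
      (fun i _ => Finset.sum_nonneg fun j _ => hB i j) (Finset.mem_univ i))
    have h5 := mul_le_mul_of_nonneg_right h3 (abs_nonneg (P i))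
    linarith
  -- the range of the degree of `g`
  obtain ⟨D0, hD0⟩ := exists_nat_ge (2 * A0 + 2)
  have hfin := comm_finite_le (F := F) hF2 D0
  set G0 := hfin.toFinset with hG0
  -- the collisions
  have hcol : ∀ (i j : Fin n) (r : ℕ) (g : K[X]), ∃ B : ℝ, 0 ≤ B ∧ ∀ t : ℕ,
      (st F)^[t] ((st f)^[r] (genHom I (MvPolynomial.X i))) ≠
        (st F)^[t] (st g ((st f)^[r] (genHom I (MvPolynomial.X j)))) →
      ∀ x y : AlgebraicClosure K, Spec K ((st f)^[r] (genHom I (MvPolynomial.X i)))
        (st g ((st f)^[r] (genHom I (MvPolynomial.X j)))) x y →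
        (st F)^[t] x = (st F)^[t] y → absLogHeight₁ x ≤ B := fun i j r g =>
    collisions_bounded' F hF2 hDBF (integral_expr (gen_integral hI i j) f g (by omega) r)
  choose Bc hBc0 hBc using hcol
  set B1 := ∑ i : Fin n, ∑ j : Fin n, ∑ r ∈ Finset.range m, ∑ g ∈ G0, Bc i j r g with hB1
  have hB10 : 0 ≤ B1 := Finset.sum_nonneg fun i _ => Finset.sum_nonneg fun j _ =>
    Finset.sum_nonneg fun r _ => Finset.sum_nonneg fun g _ => hBc0 i j r g
  have hBcle : ∀ (i j : Fin n) (r : ℕ) (g : K[X]), r < m → g ∈ G0 → Bc i j r g ≤ B1 := by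
    intro i j r g hr hg
    calc Bc i j r g ≤ ∑ g ∈ G0, Bc i j r g :=
          Finset.single_le_sum (f := fun g => Bc i j r g) (fun g _ => hBc0 i j r g) hg
      _ ≤ ∑ r ∈ Finset.range m, ∑ g ∈ G0, Bc i j r g :=
          Finset.single_le_sum (f := fun r => ∑ g ∈ G0, Bc i j r g)
            (fun r _ => Finset.sum_nonneg fun g _ => hBc0 i j r g) (Finset.mem_range.mpr hr)
      _ ≤ ∑ j : Fin n, ∑ r ∈ Finset.range m, ∑ g ∈ G0, Bc i j r g :=
          Finset.single_le_sum (f := fun j => ∑ r ∈ Finset.range m, ∑ g ∈ G0, Bc i j r g)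
            (fun j _ => Finset.sum_nonneg fun r _ => Finset.sum_nonneg fun g _ =>
              hBc0 i j r g) (Finset.mem_univ j)
      _ ≤ B1 := Finset.single_le_sum
            (f := fun i => ∑ j : Fin n, ∑ r ∈ Finset.range m, ∑ g ∈ G0, Bc i j r g)
            (fun i _ => Finset.sum_nonneg fun j _ => Finset.sum_nonneg fun r _ =>
              Finset.sum_nonneg fun g _ => hBc0 i j r g) (Finset.mem_univ i)
  set M := 3 * δ + (B0 + 3 * δ + 4 * ε) + (B1 + δ) with hM
  have hM0 : 0 ≤ M := by positivity
  refine ⟨n * (A0 * M + B0), ?_⟩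
  intro k V hV hVI P hP
  obtain ⟨hPI, hPV⟩ := hP
  -- it suffices to bound one coordinate
  have hsuff : ∀ i : Fin n, absLogHeight₁ (P i) ≤ M →
      ∑ i, absLogHeight₁ (P i) ≤ n * (A0 * M + B0) := by
    intro i hi
    calc ∑ j, absLogHeight₁ (P j) ≤ ∑ _j : Fin n, (A0 * M + B0) := by
          refine Finset.sum_le_sum fun j _ => ?_
          have h1 := hcmp' P hPI i j
          have h2 := mul_le_mul_of_nonneg_left hi hA00
          linarith
      _ = n * (A0 * M + B0) := by
          rw [Finset.sum_const, Finset.card_univ, Fintype.card_fin, nsmul_eq_mul]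
  rcases hV with ⟨i, ζ, ⟨r, hr, hper⟩, rfl⟩ | ⟨i, j, g, hij, hg1, hgc, rfl⟩
  · -- a preperiodic coordinate
    have hPi : P i = ζ := hPV
    apply hsuff i
    rw [hPi]
    have h1 := (hδ ζ k).1
    have h2 := (hδ ζ (k + r)).2
    have hper' : (st f)^[k + r] ζ = (st f)^[k] ζ := hper
    rw [hper'] at h2
    have hqk : (0 : ℝ) < q ^ k := by positivity
    have h3 : q ^ k * (q ^ r * (absLogHeight₁ ζ - δ)) ≤ q ^ k * (absLogHeight₁ ζ + δ) := by
      rw [pow_add] at h2
      nlinarith
    have h4 := le_of_mul_le_mul_left h3 hqk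
    have h5 : (2 : ℝ) ≤ q ^ r := by
      calc (2 : ℝ) ≤ q := hq2
        _ = q ^ 1 := (pow_one _).symm
        _ ≤ q ^ r := pow_le_pow_right₀ (by linarith) hr
    have h6 : absLogHeight₁ ζ ≤ 3 * δ := by
      by_contra hcon
      push Not at hcon
      nlinarith
    have h7 : 0 ≤ (B0 + 3 * δ + 4 * ε) + (B1 + δ) := by positivity
    linarith
  · -- a collision
    have hPij : (st f)^[k] (P i) = st g ((st f)^[k] (P j)) := hPV
    have hqk : (0 : ℝ) < q ^ k := by positivity
    have hqk1 : (1 : ℝ) ≤ q ^ k := one_le_pow₀ (by linarith)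
    rcases le_or_gt g.natDegree D0 with hD | hD
    · -- small degree
      have hgG : g ∈ G0 := by
        rw [hG0, Set.Finite.mem_toFinset]
        exact ⟨hg1, hD, hgc⟩
      apply hsuff i
      set r := k % m with hr
      set t := k / m with ht
      have hrm : r < m := Nat.mod_lt _ hm
      have hk : k = m * t + r := (Nat.div_add_mod k m).symm
      have hsplit : ∀ {A : Type u} [CommRing A] [Algebra K A] (z : A),
          (st f)^[k] z = (st F)^[t] ((st f)^[r] z) := by
        intro A _ _ z
        rw [hFdef, st_iter, ← Function.iterate_mul, ← Function.iterate_add_apply, ← hk]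
      have hcol : ∀ {A : Type u} [CommRing A] [Algebra K A] (z w : A),
          (st f)^[k] z = st g ((st f)^[k] w) ↔
          (st F)^[t] ((st f)^[r] z) = (st F)^[t] (st g ((st f)^[r] w)) := by
        intro A _ _ z w
        rw [hsplit z, hsplit w, st_comm_iter hgc]
      have hne : (st F)^[t] ((st f)^[r] (genHom I (MvPolynomial.X i))) ≠
          (st F)^[t] (st g ((st f)^[r] (genHom I (MvPolynomial.X j)))) := by
        intro h
        apply hVI
        intro P' hP'
        have h1 := (hcol _ _).mpr h
        rw [← map_iter_st, ← map_iter_st, ← map_st] at h1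
        have h2 : (st f)^[k] (MvPolynomial.X i : MvPolynomial (Fin n) K) -
            st g ((st f)^[k] (MvPolynomial.X j)) ∈ I := by
          apply genHom_eq_zero
          rw [map_sub, h1, sub_self]
        have h3 := hP' _ h2
        rw [map_sub, map_iter_st, map_st, map_iter_st, MvPolynomial.aeval_X,
          MvPolynomial.aeval_X] at h3
        exact sub_eq_zero.mp h3
      have hsp := spec_of hPI ((st f)^[r] (MvPolynomial.X i)) (st g ((st f)^[r]
        (MvPolynomial.X j)))
      rw [map_iter_st, map_iter_st, map_st, map_iter_st, map_st, map_iter_st,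
        MvPolynomial.aeval_X, MvPolynomial.aeval_X] at hsp
      have h3 := hBc i j r g t hne _ _ hsp ((hcol _ _).mp hPij)
      have h4 := hBcle i j r g hrm hgG
      have h5 := (hδ (P i) r).2
      have hqr : (1 : ℝ) ≤ q ^ r := one_le_pow₀ (by linarith)
      have h6 : absLogHeight₁ (P i) ≤ B1 + δ := by
        rcases le_or_gt (absLogHeight₁ (P i)) δ with h | h
        · linarith
        · have h7 : 1 * (absLogHeight₁ (P i) - δ) ≤ q ^ r * (absLogHeight₁ (P i) - δ) :=
            mul_le_mul_of_nonneg_right hqr (by linarith)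
          linarith
      have h7 : 0 ≤ 3 * δ + (B0 + 3 * δ + 4 * ε) := by positivity
      linarith
    · -- large degree
      apply hsuff j
      set D : ℝ := (g.natDegree : ℝ) with hDdef
      have hDge : 2 * A0 + 2 ≤ D := by
        have : (D0 : ℝ) ≤ D := Nat.cast_le.mpr hD.le
        linarith
      have h1 := (hδ (P i) k).1
      have h2 := (hδ (P j) k).2
      have h3 := (hε g hg1 hgc ((st f)^[k] (P j))).2
      rw [← hPij] at h3
      have h4 := hcmp' P hPI j i
      set xj := absLogHeight₁ (P j) with hxj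
      set xi := absLogHeight₁ (P i) with hxi
      have hxj0 : 0 ≤ xj := abs_nonneg _
      have hDpos : 0 < D := by linarith
      have h5 : D * (q ^ k * (xj - δ) + δ) ≤ D * absLogHeight₁ ((st f)^[k] (P j)) :=
        mul_le_mul_of_nonneg_left h2 hDpos.le
      have h6 : q ^ k * (D * (xj - δ)) ≤ q ^ k * (xi + δ + (D + 1) * ε) := by
        have h7 : (D + 1) * ε ≤ q ^ k * ((D + 1) * ε) :=
          le_mul_of_one_le_left (by positivity) hqk1
        have h8 : 0 ≤ D * δ := by positivity
        nlinarith
      have h7 := le_of_mul_le_mul_left h6 hqk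
      have h8 : xj ≤ B0 + 3 * δ + 4 * ε := by
        by_contra hcon
        push Not at hcon
        -- `D (xj - δ) ≤ A0 xj + B0 + δ + (D + 1) ε`
        have h9 : D * (xj - δ) ≤ A0 * xj + B0 + δ + (D + 1) * ε := by linarith
        have h10 : A0 * xj ≤ (D / 2 - 1) * xj :=
          mul_le_mul_of_nonneg_right (by linarith) hxj0
        have h11 : D / 2 * xj + xj ≤ D * δ + B0 + δ + (D + 1) * ε := by linarith
        have h12 : D / 2 * (B0 + 3 * δ + 4 * ε) ≤ D / 2 * xj :=
          mul_le_mul_of_nonneg_left hcon.le (by positivity)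
        have h13 : 0 ≤ D * B0 := by positivity
        have h14 : 0 ≤ D * δ := by positivity
        have h15 : 0 ≤ D * ε := by positivity
        have h16 : 2 ≤ D := by linarith
        nlinarith
      have h9 : 0 ≤ 3 * δ + (B1 + δ) := by positivity
      linarith

end Pool.Agent.UHG
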