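import Pool.Agent.UHG.Base

/-!
# Collisions on a curve have bounded height: degree bound required only for certain pairs

As `collisions_bounded`, but the degree bound is needed only for the pairs `(x, y)` with `S x y`,
`S` an arbitrary relation on `Ω`, and only for subfields of `Ω`.
-/

set_option autoImplicit false

universe u

open NumberField Polynomial IsDedekindDomain

namespace Pool.Agent.UHG

open Pool.Agent.UH (evK evK_apply evK_X evK_C map_evK exists_mult Spec Spec.rel
  finite_roots_bound abs_height_bound abs_nonneg)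

section
variable {K : Type*} [Field K] [NumberField K]

omit [NumberField K] in
/-- The degree of `K(x, y)` for a collision, in terms of the degree of `x`. -/
theorem degree_le_S {Ω : Type u} [Field Ω] [CharZero Ω] [Algebra K Ω] {f : K[X]}
    {S : Ω → Ω → Prop} {C0 : ℕ}
    (hC0 : ∀ (E : IntermediateField K Ω) [FiniteDimensional K E] (x y : E) (N : ℕ), S x y →
      (st f)^[N + 1] x = (st f)^[N + 1] y → (st f)^[N] x ≠ (st f)^[N] y →
        f.natDegree ^ N ≤ C0 * Module.finrank K E)
    (D : ℕ) (k1 : IntermediateField K Ω) [FiniteDimensional K k1] (x1 : k1) {y : Ω}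
    (G : Polynomial k1)
    (hG0 : G ≠ 0) (hGD : G.natDegree ≤ D) (hGy : aeval y G = 0) (N : ℕ) (hS : S x1 y)
    (h1 : (st f)^[N + 1] (x1 : Ω) = (st f)^[N + 1] y)
    (h2 : (st f)^[N] (x1 : Ω) ≠ (st f)^[N] y) :
    f.natDegree ^ N ≤ C0 * (D * Module.finrank K k1) := by
  have hyi : IsIntegral k1 y := (isAlgebraic_iff_isIntegral).mp ⟨G, hG0, hGy⟩
  set E := IntermediateField.adjoin k1 {y} with hE
  have hfd2 : FiniteDimensional k1 E := IntermediateField.adjoin.finiteDimensional hyi
  have hfd3 : FiniteDimensional K E := Module.Finite.trans k1 E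
  set E' : IntermediateField K Ω := E.restrictScalars K with hE'
  have hfd4 : FiniteDimensional K E' := hfd3
  have hx1 : (x1 : Ω) ∈ E' := E.algebraMap_mem x1
  have hy1 : y ∈ E' := IntermediateField.mem_adjoin_simple_self k1 y
  have hinj : Function.Injective E'.val := E'.val.injective
  have e1 : (st f)^[N + 1] (⟨x1, hx1⟩ : E') = (st f)^[N + 1] (⟨y, hy1⟩ : E') := by
    apply hinj
    rw [map_iter_st, map_iter_st]
    exact h1
  have e2 : (st f)^[N] (⟨x1, hx1⟩ : E') ≠ (st f)^[N] (⟨y, hy1⟩ : E') := by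
    intro h
    apply h2
    have := congrArg E'.val h
    rwa [map_iter_st, map_iter_st] at this
  have e3 := hC0 E' ⟨x1, hx1⟩ ⟨y, hy1⟩ N hS e1 e2
  refine e3.trans (Nat.mul_le_mul_left _ ?_)
  have e4 : Module.finrank K E' = Module.finrank K E := rfl
  have e5 : Module.finrank k1 E = (minpoly k1 y).natDegree :=
    IntermediateField.adjoin.finrank hyi
  have e6 : (minpoly k1 y).natDegree ≤ D :=
    (natDegree_le_of_dvd (minpoly.dvd k1 y hGy) hG0).trans hGD
  rw [e4, ← Module.finrank_mul_finrank K k1 E, e5, mul_comm]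
  exact Nat.mul_le_mul_right _ e6

/-- **Collisions on a curve**, degree bound only for the pairs in `S`. -/
theorem collisions_bounded_S {Ω : Type u} [Field Ω] [CharZero Ω] [Algebra K Ω] [IsAlgClosed Ω]
    [Algebra.IsAlgebraic ℚ Ω] [Algebra.IsAlgebraic K Ω]
    {F : Type*} [Field F] [Algebra K F] (f : K[X]) (hd2 : 2 ≤ f.natDegree)
    (S : Ω → Ω → Prop) {C0 : ℕ}
    (hC0 : ∀ (E : IntermediateField K Ω) [FiniteDimensional K E] (x y : E) (N : ℕ), S x y →
      (st f)^[N + 1] x = (st f)^[N + 1] y → (st f)^[N] x ≠ (st f)^[N] y →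
        f.natDegree ^ N ≤ C0 * Module.finrank K E)
    {ξ η : F} (hη : IsIntegral (IntermediateField.adjoin K {ξ}) η) :
    ∃ B : ℝ, 0 ≤ B ∧ ∀ k : ℕ, (st f)^[k] ξ ≠ (st f)^[k] η →
      ∀ x y : Ω, Spec K ξ η x y → S x y → (st f)^[k] x = (st f)^[k] y →
        absLogHeight₁ x ≤ B := by
  obtain ⟨b, Nf, hb0, hNf⟩ := exists_mult f
  set α : ℕ → 𝓞 K := fun i => Nf.coeff i with hα
  set a : ℕ → K := f.coeff with ha
  have hab : ∀ i, (α i : K) = b * a i := by
    intro i
    have := congrArg (fun p : K[X] => p.coeff i) hNf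
    simp only [coeff_map, coeff_C_mul] at this
    exact this
  have hstF : (st f : F → F) = pv f.natDegree (fun i => algebraMap K F (a i)) := iter_aeval_eq f
  have hstΩ : (st f : Ω → Ω) = pv f.natDegree (fun i => algebraMap K Ω (a i)) :=
    iter_aeval_eq f
  rw [hstF]
  have hdegS := fun (D : ℕ) (k1 : IntermediateField K Ω) [FiniteDimensional K k1] (x1 : k1)
    (y : Ω) (G : Polynomial k1) (h1 : G ≠ 0) (h2 : G.natDegree ≤ D) (h3 : aeval y G = 0)
    (N : ℕ) (h4 : S x1 y) (h5 : (st f)^[N + 1] (x1 : Ω) = (st f)^[N + 1] y)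
    (h6 : (st f)^[N] (x1 : Ω) ≠ (st f)^[N] y) =>
    degree_le_S hC0 D k1 x1 G h1 h2 h3 N h4 h5 h6
  rw [hstΩ] at hdegS ⊢
  clear hC0
  generalize f.natDegree = d at *
  classical
  obtain ⟨D, g, hD, hgD, hrel, hnz⟩ := exists_rel hη
  -- the leading coefficient
  have hgD0 : g D ≠ 0 := by
    rintro h
    rw [h, map_zero] at hgD
    exact hgD rfl
  have hP0 : ((g D).map (algebraMap (𝓞 K) K)).map (algebraMap K Ω) ≠ 0 := by
    rw [Polynomial.map_ne_zero_iff (algebraMap K Ω).injective,
      Polynomial.map_ne_zero_iff (FaithfulSMul.algebraMap_injective (𝓞 K) K)]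
    exact hgD0
  obtain ⟨B1, hB1, hB1'⟩ := finite_roots_bound _ hP0
  -- the constants
  set A : ℝ := 1 + ∑ σ : K →+* ℂ, ((∑ i ∈ Finset.range (d + 1), ‖σ (α i)‖) + ‖σ b‖) with hA
  have hA1 : 1 ≤ A := by
    have : 0 ≤ ∑ σ : K →+* ℂ, ((∑ i ∈ Finset.range (d + 1), ‖σ (α i)‖) + ‖σ b‖) :=
      Finset.sum_nonneg fun σ _ => by positivity
    linarith
  have hAab : ∀ σ : K →+* ℂ, (∑ i ∈ Finset.range (d + 1), ‖σ (α i)‖) + ‖σ b‖ ≤ A := fun σ => by
    have := Finset.single_le_sum
      (f := fun σ : K →+* ℂ => (∑ i ∈ Finset.range (d + 1), ‖σ (α i)‖) + ‖σ b‖)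
      (fun σ _ => by positivity) (Finset.mem_univ σ)
    linarith
  have hAb : ∀ σ : K →+* ℂ, ‖σ b‖ ≤ A := fun σ => by
    have h1 : 0 ≤ ∑ i ∈ Finset.range (d + 1), ‖σ (α i)‖ :=
      Finset.sum_nonneg fun i _ => norm_nonneg _
    have h2 := hAab σ
    linarith
  have hAa : ∀ σ : K →+* ℂ, ∀ i ≤ d, ‖σ (α i)‖ ≤ A := fun σ i hi => by
    have h1 := Finset.single_le_sum (f := fun i => ‖σ (α i)‖) (fun i _ => norm_nonneg _)
      (Finset.mem_range.mpr (Nat.lt_succ_of_le hi))
    have h2 := hAab σ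
    have h3 := norm_nonneg (σ (b : K))
    linarith
  set e : ℝ := 1 + ∑ σ : K →+* ℂ, ∑ j ∈ Finset.range (D + 1), ∑ i ∈ (g j).support,
    ‖σ ((g j).coeff i)‖ with he
  have he1 : 1 ≤ e := by
    have : 0 ≤ ∑ σ : K →+* ℂ, ∑ j ∈ Finset.range (D + 1), ∑ i ∈ (g j).support,
      ‖σ ((g j).coeff i)‖ := Finset.sum_nonneg fun σ _ => Finset.sum_nonneg fun j _ =>
        Finset.sum_nonneg fun i _ => norm_nonneg _
    linarith
  set τ : (K →+* ℂ) → ℂ → ((𝓞 K)[X] →+* ℂ) := fun σ z =>
    eval₂RingHom (σ.comp (algebraMap (𝓞 K) K)) z with hτ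
  have hge : ∀ (σ : K →+* ℂ) (z : ℂ), ‖z‖ = 1 → ∀ j ≤ D, ‖τ σ z (g j)‖ ≤ e := by
    intro σ z hz j hj
    have h1 : ‖τ σ z (g j)‖ ≤ ∑ i ∈ (g j).support, ‖σ ((g j).coeff i)‖ := by
      rw [hτ]
      simp only [coe_eval₂RingHom]
      rw [eval₂_eq_sum, Polynomial.sum]
      refine norm_sum_le_of_le _ fun i _ => ?_
      rw [norm_mul, norm_pow, hz, one_pow, mul_one]
      rfl
    have h2 := Finset.single_le_sum (f := fun j => ∑ i ∈ (g j).support, ‖σ ((g j).coeff i)‖)
      (fun j _ => Finset.sum_nonneg fun i _ => norm_nonneg _)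
      (Finset.mem_range.mpr (Nat.lt_succ_of_le hj))
    have h3 := Finset.single_le_sum (f := fun σ : K →+* ℂ => ∑ j ∈ Finset.range (D + 1),
      ∑ i ∈ (g j).support, ‖σ ((g j).coeff i)‖)
      (fun σ _ => Finset.sum_nonneg fun j _ => Finset.sum_nonneg fun i _ => norm_nonneg _)
      (Finset.mem_univ σ)
    linarith
  set M : ℝ := (D.factorial : ℝ) * 2 ^ D * (Gam d D A * e) ^ (2 * D) with hM
  have hM1 : 1 ≤ M := by
    have h2 : (1 : ℝ) ≤ D.factorial := by exact_mod_cast D.factorial_pos
    have h3 : (1 : ℝ) ≤ Gam d D A * e :=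
      one_le_mul_of_one_le_of_one_le (hA1.trans (Gam_ge hD hA1)) he1
    exact one_le_mul_of_one_le_of_one_le
      (one_le_mul_of_one_le_of_one_le h2 (one_le_pow₀ (by norm_num))) (one_le_pow₀ h3)
  have hlogM : 0 ≤ Real.log M := Real.log_nonneg hM1
  -- the height in terms of the degree
  have hheight : ∀ k : ℕ,
      (pv d (fun i => algebraMap K F (a i)))^[k] ξ ≠
        (pv d (fun i => algebraMap K F (a i)))^[k] η →
      ∀ x y : Ω, Spec K ξ η x y →
        (pv d (fun i => algebraMap K Ω (a i)))^[k] x =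
          (pv d (fun i => algebraMap K Ω (a i)))^[k] y →
          (minpoly K x).natDegree * absLogHeight₁ x ≤ (d : ℝ) ^ k * Real.log M := by
    intro k hk x y hxy hkxy
    set Fk := FK d (fun i => C (α i)) (C b) D g X k with hFk
    have hFk0 : Fk ≠ 0 := hnz d a α b hb0 hab k hk
    have e1 : evK (K := K) x Fk = 0 := by
      rw [hFk, map_FK, evK_X]
      simp only [evK_C]
      have hab' : (fun i => algebraMap K Ω (α i : K)) =
          fun i => algebraMap K Ω (b : K) * algebraMap K Ω (a i) := by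
        funext i
        rw [← map_mul, hab]
      rw [hab']
      exact FK_eq_zero hD d _ _ _ x y (hxy.rel D g hrel) k hkxy
    have h5 : Fk.map (algebraMap (𝓞 K) K) ≠ 0 := by
      rw [Polynomial.map_ne_zero_iff (FaithfulSMul.algebraMap_injective (𝓞 K) K)]
      exact hFk0
    have h6 := abs_height_bound (Fk.map (algebraMap (𝓞 K) K)) h5 (by
      intro i
      rw [coeff_map]
      exact (Fk.coeff i).2) (B := M ^ d ^ k) (one_le_pow₀ hM1) (by
      intro σ z hz
      have e2 : ((Fk.map (algebraMap (𝓞 K) K)).map σ).eval z = τ σ z Fk := by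
        rw [Polynomial.map_map, eval_map]
        rfl
      rw [e2, hFk, map_FK]
      refine FK_bound hD hd2 ?_ ?_ hA1 (hge σ z hz) ?_ he1 k
      · intro i hi
        rw [hτ]
        simp only [coe_eval₂RingHom, eval₂_C]
        exact hAa σ i hi
      · rw [hτ]
        simp only [coe_eval₂RingHom, eval₂_C]
        exact hAb σ
      · rw [hτ]
        simp only [coe_eval₂RingHom, eval₂_X]
        rw [hz]; exact he1) (x := x) (by
      exact e1)
    rw [Real.log_pow] at h6
    exact_mod_cast h6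
  refine ⟨B1 + (d * (C0 * D) * Real.log M + Real.log M), by positivity, ?_⟩
  intro k hk x y hxy hSxy hkxy
  by_cases hbad : evK (K := K) x (g D) = 0
  · have h7 := hB1' x (by
      rw [eval_map_algebraMap]
      exact hbad)
    have h8 : 0 ≤ d * (C0 * D) * Real.log M + Real.log M := by positivity
    linarith
  have hxi : IsIntegral K x := Algebra.IsIntegral.isIntegral x
  have hdeg : (0 : ℝ) < (minpoly K x).natDegree := by
    exact_mod_cast minpoly.natDegree_pos hxi
  -- the minimal level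
  have hex : ∃ n, (pv d (fun i => algebraMap K Ω (a i)))^[n] x =
    (pv d (fun i => algebraMap K Ω (a i)))^[n] y := ⟨k, hkxy⟩
  set n := Nat.find hex with hn
  have hn1 := Nat.find_spec hex
  rw [← hn] at hn1
  have hnk : n ≤ k := Nat.find_min' hex hkxy
  have hnF : (pv d (fun i => algebraMap K F (a i)))^[n] ξ ≠
      (pv d (fun i => algebraMap K F (a i)))^[n] η := by
    intro h
    apply hk
    obtain ⟨r, rfl⟩ : ∃ r, k = r + n := ⟨k - n, by omega⟩
    rw [Function.iterate_add_apply, Function.iterate_add_apply, h]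
  have h9 := hheight n hnF x y hxy hn1
  rcases Nat.eq_zero_or_pos n with hn0 | hnpos
  · rw [hn0, pow_zero, one_mul] at h9
    have h10 : absLogHeight₁ x ≤ (minpoly K x).natDegree * absLogHeight₁ x := by
      have h11 : (1 : ℝ) ≤ (minpoly K x).natDegree := by
        exact_mod_cast minpoly.natDegree_pos hxi
      exact le_mul_of_one_le_left (abs_nonneg x) h11
    have h12 : 0 ≤ d * (C0 * D) * Real.log M := by positivity
    linarith
  · obtain ⟨N, hN⟩ : ∃ N, n = N + 1 := ⟨n - 1, by omega⟩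
    rw [hN] at hn1 h9
    have hmin : (pv d (fun i => algebraMap K Ω (a i)))^[N] x ≠
        (pv d (fun i => algebraMap K Ω (a i)))^[N] y :=
      Nat.find_min hex (by omega)
    -- the polynomial satisfied by `y` over `K(x)`
    set k1 := IntermediateField.adjoin K {x} with hk1
    set x1 : k1 := IntermediateField.AdjoinSimple.gen K x with hx1
    set G : k1[X] := ∑ j ∈ Finset.range (D + 1), C (evK x1 (g j)) * X ^ j with hG
    have hx1e : ∀ j, algebraMap k1 Ω (evK x1 (g j)) = evK x (g j) := by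
      intro j
      exact map_evK (IsScalarTower.toAlgHom K k1 Ω) x1 (g j)
    have hGcoeff : G.coeff D = evK x1 (g D) := by
      rw [hG, finsetSum_coeff]
      simp [coeff_X_pow]
    have hG0 : G ≠ 0 := by
      intro h
      apply hbad
      rw [h, coeff_zero] at hGcoeff
      rw [← hx1e, ← hGcoeff, map_zero]
    have hGD : G.natDegree ≤ D := by
      rw [hG]
      refine natDegree_sum_le_of_forall_le _ _ fun j hj => ?_
      refine (natDegree_C_mul_X_pow_le _ _).trans ?_
      exact Nat.lt_succ_iff.mp (Finset.mem_range.mp hj)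
    have hGy : aeval y G = 0 := by
      rw [hG, map_sum, ← hxy.rel D g hrel]
      refine Finset.sum_congr rfl fun j _ => ?_
      rw [map_mul, aeval_C, map_pow, aeval_X, hx1e]
    have hfd1 : FiniteDimensional K k1 := IntermediateField.adjoin.finiteDimensional hxi
    have h13 := hdegS D k1 x1 y G hG0 hGD hGy N hSxy hn1 hmin
    rw [show Module.finrank K k1 = (minpoly K x).natDegree from
      IntermediateField.adjoin.finrank hxi] at h13
    have h14 : (d : ℝ) ^ N ≤ C0 * (D * (minpoly K x).natDegree) := by exact_mod_cast h13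
    have h15 : (minpoly K x).natDegree * absLogHeight₁ x ≤
        (minpoly K x).natDegree * (d * (C0 * D) * Real.log M) := by
      calc _ ≤ (d : ℝ) ^ (N + 1) * Real.log M := h9
        _ = d * (d : ℝ) ^ N * Real.log M := by ring
        _ ≤ d * (C0 * (D * (minpoly K x).natDegree)) * Real.log M := by gcongr
        _ = _ := by ring
    have h16 := le_of_mul_le_mul_left h15 hdeg
    linarith

end

end Pool.Agent.UHG
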