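import Pool.Agent.UH.Mat

/-!
# The norm form of a collision, general polynomial

`f = ∑ i ≤ d, a i X ^ i` with `b a i` integral. As in `UH/Mat`, but for every polynomial.
-/

set_option autoImplicit false

open Matrix

namespace Pool.Agent.UHG

open Pool.Agent.UH (den cm map_den map_cm cm_mulVec pow_mulVec EE EE_pos EE_le
  pow_entry_bound den_ne_zero)

/-- `∑ i ≤ d, a i x ^ i` -/
def pv {R : Type*} [Semiring R] (d : ℕ) (a : ℕ → R) (x : R) : R :=
  ∑ i ∈ Finset.range (d + 1), a i * x ^ i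

theorem map_pv {A B : Type*} [Semiring A] [Semiring B] (φ : A →+* B) (d : ℕ) (a : ℕ → A)
    (x : A) : φ (pv d a x) = pv d (fun i => φ (a i)) (φ x) := by
  unfold pv
  rw [map_sum]
  exact Finset.sum_congr rfl fun i _ => by rw [map_mul, map_pow]

theorem map_iter_pv {A B : Type*} [Semiring A] [Semiring B] (φ : A →+* B) (d : ℕ) (a : ℕ → A)
    (x : A) (n : ℕ) : φ ((pv d a)^[n] x) = (pv d (fun i => φ (a i)))^[n] (φ x) := by
  induction n generalizing x with
  | zero => rfl
  | succ n ih => rw [Function.iterate_succ_apply, Function.iterate_succ_apply, ih, map_pv]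

/-- The numerators. -/
def num {S : Type*} [CommRing S] (d : ℕ) (α : ℕ → S) (b u w : S) : ℕ → S
  | 0 => u
  | k + 1 => ∑ i ∈ Finset.range (d + 1), α i * num d α b u w k ^ i * den d b w k ^ (d - i)

/-- The numerators of the iterates of a matrix. -/
def matN {S : Type*} [CommRing S] {D : ℕ} (d : ℕ) (α : ℕ → S) (b : S)
    (M : Matrix (Fin D) (Fin D) S) (w : S) : ℕ → Matrix (Fin D) (Fin D) S
  | 0 => M
  | k + 1 => ∑ i ∈ Finset.range (d + 1), (α i * den d b w k ^ (d - i)) • matN d α b M w k ^ i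

/-- The matrix of `f^k(x) - f^k(y)`. -/
def AK {S : Type*} [CommRing S] (d : ℕ) (α : ℕ → S) (b : S) (D : ℕ) (g : ℕ → S) (x : S)
    (k : ℕ) : Matrix (Fin D) (Fin D) S :=
  (num d α b x 1 k * den d b (g D) k) • (1 : Matrix (Fin D) (Fin D) S) -
    den d b 1 k • matN d α b (cm D g) (g D) k

/-- The norm form. -/
def FK {S : Type*} [CommRing S] (d : ℕ) (α : ℕ → S) (b : S) (D : ℕ) (g : ℕ → S) (x : S)
    (k : ℕ) : S :=
  (AK d α b D g x k).det

section nat
variable {S T : Type*} [CommRing S] [CommRing T] (φ : S →+* T)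

theorem map_num (d : ℕ) (α : ℕ → S) (b u w : S) (k : ℕ) :
    φ (num d α b u w k) = num d (fun i => φ (α i)) (φ b) (φ u) (φ w) k := by
  induction k with
  | zero => rfl
  | succ k ih => simp only [num, map_sum, map_mul, map_pow, ih, map_den]

theorem map_matN {D : ℕ} (d : ℕ) (α : ℕ → S) (b : S) (M : Matrix (Fin D) (Fin D) S) (w : S)
    (k : ℕ) : φ.mapMatrix (matN d α b M w k) =
      matN d (fun i => φ (α i)) (φ b) (φ.mapMatrix M) (φ w) k := by
  induction k with
  | zero => rfl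
  | succ k ih =>
    simp only [matN, map_sum]
    refine Finset.sum_congr rfl fun i _ => ?_
    rw [← ih, ← map_den, ← map_pow, ← map_mul, ← map_pow]
    ext r s
    simp [RingHom.mapMatrix_apply]

theorem map_AK (d : ℕ) (α : ℕ → S) (b : S) (D : ℕ) (g : ℕ → S) (x : S) (k : ℕ) :
    φ.mapMatrix (AK d α b D g x k) =
      AK d (fun i => φ (α i)) (φ b) D (fun j => φ (g j)) (φ x) k := by
  unfold AK
  rw [map_sub, ← map_cm, ← map_matN, ← map_den, ← map_one φ, ← map_den, ← map_num, ← map_mul]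
  congr 1
  · ext i j
    simp [RingHom.mapMatrix_apply, Matrix.one_apply, apply_ite φ]
  · ext i j
    simp [RingHom.mapMatrix_apply]

theorem map_FK (d : ℕ) (α : ℕ → S) (b : S) (D : ℕ) (g : ℕ → S) (x : S) (k : ℕ) :
    φ (FK d α b D g x k) = FK d (fun i => φ (α i)) (φ b) D (fun j => φ (g j)) (φ x) k := by
  unfold FK
  rw [← map_AK, RingHom.map_det]

end nat

section
variable {S : Type*} [CommRing S]

theorem num_eq (d : ℕ) (a : ℕ → S) (b w y : S) (k : ℕ) :
    num d (fun i => b * a i) b (w * y) w k = den d b w k * (pv d a)^[k] y := by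
  induction k with
  | zero => rfl
  | succ k ih =>
    simp only [num, den, ih, Function.iterate_succ_apply']
    rw [pv, Finset.mul_sum]
    refine Finset.sum_congr rfl fun i hi => ?_
    have hid : i ≤ d := Nat.lt_succ_iff.mp (Finset.mem_range.mp hi)
    have h1 : den d b w k ^ d = den d b w k ^ i * den d b w k ^ (d - i) := by
      rw [← pow_add]; congr 1; omega
    rw [h1, mul_pow]
    ring

theorem matN_mulVec {D : ℕ} (d : ℕ) (α : ℕ → S) (b : S) {M : Matrix (Fin D) (Fin D) S}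
    {v : Fin D → S} {u : S} (w : S) (h : M *ᵥ v = u • v) (k : ℕ) :
    (matN d α b M w k) *ᵥ v = num d α b u w k • v := by
  induction k with
  | zero => exact h
  | succ k ih =>
    simp only [matN, num]
    rw [Matrix.sum_mulVec, Finset.sum_smul]
    refine Finset.sum_congr rfl fun i _ => ?_
    rw [Matrix.smul_mulVec, pow_mulVec ih, smul_smul]
    congr 1
    ring

theorem AK_mulVec {D : ℕ} (d : ℕ) (a : ℕ → S) (b : S) (g : ℕ → S) (x y : S)
    (h : ∑ j ∈ Finset.range (D + 1), g j * y ^ j = 0) (k : ℕ) :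
    (AK d (fun i => b * a i) b D g x k) *ᵥ (UH.vec y) =
      (den d b 1 k * den d b (g D) k * ((pv d a)^[k] x - (pv d a)^[k] y)) • UH.vec y := by
  unfold AK
  rw [Matrix.sub_mulVec, Matrix.smul_mulVec, Matrix.one_mulVec, Matrix.smul_mulVec,
    matN_mulVec d (fun i => b * a i) b (g D) (cm_mulVec g y h), smul_smul, ← sub_smul, num_eq]
  have h1 : num d (fun i => b * a i) b x 1 k = den d b 1 k * (pv d a)^[k] x := by
    have := num_eq d a b 1 x k
    rwa [one_mul] at this
  rw [h1]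
  congr 1; ring

end

section
variable {F : Type*} [Field F]

/-- The norm form vanishes at a collision. -/
theorem FK_eq_zero {D : ℕ} (hD : 0 < D) (d : ℕ) (a : ℕ → F) (b : F) (g : ℕ → F) (x y : F)
    (h : ∑ j ∈ Finset.range (D + 1), g j * y ^ j = 0) (k : ℕ)
    (hk : (pv d a)^[k] x = (pv d a)^[k] y) : FK d (fun i => b * a i) b D g x k = 0 := by
  unfold FK
  apply Matrix.exists_mulVec_eq_zero_iff.mp
  refine ⟨UH.vec y, ?_, ?_⟩
  · intro h0
    have := congrFun h0 ⟨0, hD⟩
    simp [UH.vec] at this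
  · rw [AK_mulVec d a b g x y h k, hk, sub_self, mul_zero, zero_smul]

/-- The norm form does not vanish when no conjugate collides. -/
theorem FK_ne_zero {D : ℕ} (d : ℕ) {a : ℕ → F} {b : F} (hb : b ≠ 0) (g : ℕ → F) (hg : g D ≠ 0)
    (x : F) (β : Fin D → F) (hβ : Function.Injective β)
    (h : ∀ i, ∑ j ∈ Finset.range (D + 1), g j * β i ^ j = 0) (k : ℕ)
    (hk : ∀ i, (pv d a)^[k] x ≠ (pv d a)^[k] (β i)) : FK d (fun i => b * a i) b D g x k ≠ 0 := by
  set lam : Fin D → F := fun i =>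
    den d b 1 k * den d b (g D) k * ((pv d a)^[k] x - (pv d a)^[k] (β i)) with hlam
  have hmul : (AK d (fun i => b * a i) b D g x k) * (Matrix.vandermonde β)ᵀ =
      (Matrix.vandermonde β)ᵀ * Matrix.diagonal lam := by
    ext i j
    rw [Matrix.mul_diagonal]
    have h1 := congrFun (AK_mulVec d a b g x (β j) (h j) k) i
    rw [Pi.smul_apply, smul_eq_mul] at h1
    have h2 : ((AK d (fun i => b * a i) b D g x k) * (Matrix.vandermonde β)ᵀ) i j =
        ((AK d (fun i => b * a i) b D g x k) *ᵥ (UH.vec (β j))) i := by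
      rw [Matrix.mul_apply, Matrix.mulVec, dotProduct]
      rfl
    rw [h2, h1]
    simp only [UH.vec, Matrix.transpose_apply, Matrix.vandermonde_apply, hlam]
    ring
  have hdet := congrArg Matrix.det hmul
  rw [Matrix.det_mul, Matrix.det_mul, Matrix.det_diagonal, Matrix.det_transpose] at hdet
  have hV : (Matrix.vandermonde β).det ≠ 0 := Matrix.det_vandermonde_ne_zero_iff.mpr hβ
  have hlam0 : ∏ i, lam i ≠ 0 := Finset.prod_ne_zero_iff.mpr fun i _ =>
    mul_ne_zero (mul_ne_zero (den_ne_zero d hb one_ne_zero k) (den_ne_zero d hb hg k))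
      (sub_ne_zero.mpr (hk i))
  intro h0
  unfold FK at h0
  rw [h0, zero_mul] at hdet
  exact mul_ne_zero hV hlam0 hdet.symm

end

section bounds

variable {d D : ℕ} {α : ℕ → ℂ} {b w x : ℂ} {g : ℕ → ℂ} {A e : ℝ}

/-- The constant of one step. -/
noncomputable def Gam (d D : ℕ) (A : ℝ) : ℝ := A * (((d : ℝ) + 1) * (D : ℝ) ^ d)

theorem Gam_ge {d D : ℕ} (hD : 0 < D) {A : ℝ} (hA : 1 ≤ A) : A ≤ Gam d D A := by
  have h1 : (1 : ℝ) ≤ (D : ℝ) ^ d := one_le_pow₀ (by exact_mod_cast hD)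
  have h2 : (1 : ℝ) ≤ (d : ℝ) + 1 := by
    have : (0 : ℝ) ≤ d := Nat.cast_nonneg d
    linarith
  have h3 : (1 : ℝ) ≤ ((d : ℝ) + 1) * (D : ℝ) ^ d := one_le_mul_of_one_le_of_one_le h2 h1
  unfold Gam
  exact le_mul_of_one_le_right (by linarith) h3

theorem den_bound (hD : 0 < D) (hb : ‖b‖ ≤ A) (hA : 1 ≤ A) (hw : ‖w‖ ≤ e) (he : 1 ≤ e)
    (k : ℕ) : ‖den d b w k‖ ≤ EE d (Gam d D A) e k := by
  have hΓA := Gam_ge (d := d) hD hA
  have hΓ : 1 ≤ Gam d D A := hA.trans hΓA
  induction k with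
  | zero => exact hw
  | succ k ih =>
    simp only [den, EE]
    rw [norm_mul, norm_pow]
    have h0 : 0 ≤ EE d (Gam d D A) e k := zero_le_one.trans (EE_pos hΓ he k)
    have h1 : ‖b‖ ≤ Gam d D A := hb.trans hΓA
    gcongr

theorem num_bound (hD : 0 < D) (hα : ∀ i ≤ d, ‖α i‖ ≤ A) (hb : ‖b‖ ≤ A) (hA : 1 ≤ A)
    (hw : ‖w‖ ≤ e) (hx : ‖x‖ ≤ e) (he : 1 ≤ e) (k : ℕ) :
    ‖num d α b x w k‖ ≤ EE d (Gam d D A) e k := by
  have hΓA := Gam_ge (d := d) hD hA
  have hΓ : 1 ≤ Gam d D A := hA.trans hΓA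
  have hD1 : (1 : ℝ) ≤ (D : ℝ) ^ d := one_le_pow₀ (by exact_mod_cast hD)
  induction k with
  | zero => exact hx
  | succ k ih =>
    simp only [num, EE]
    have h0 : 0 ≤ EE d (Gam d D A) e k := zero_le_one.trans (EE_pos hΓ he k)
    have hd := den_bound (d := d) (D := D) hD hb hA hw he k
    set E := EE d (Gam d D A) e k
    calc ‖∑ i ∈ Finset.range (d + 1), α i * num d α b x w k ^ i * den d b w k ^ (d - i)‖
        ≤ ∑ _i ∈ Finset.range (d + 1), A * E ^ d := by
          refine norm_sum_le_of_le _ fun i hi => ?_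
          have hid : i ≤ d := Nat.lt_succ_iff.mp (Finset.mem_range.mp hi)
          rw [norm_mul, norm_mul, norm_pow, norm_pow]
          have h1 : E ^ d = E ^ i * E ^ (d - i) := by
            rw [← pow_add]; congr 1; omega
          rw [h1, ← mul_assoc]
          have h2 := hα i hid
          gcongr
      _ = A * (((d : ℝ) + 1) * 1) * E ^ d := by
          rw [Finset.sum_const, Finset.card_range, nsmul_eq_mul]
          push_cast
          ring
      _ ≤ A * (((d : ℝ) + 1) * (D : ℝ) ^ d) * E ^ d := by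
          gcongr
      _ = Gam d D A * E ^ d := rfl

theorem matN_bound {M : Matrix (Fin D) (Fin D) ℂ} (hD : 0 < D) (hα : ∀ i ≤ d, ‖α i‖ ≤ A)
    (hb : ‖b‖ ≤ A) (hA : 1 ≤ A) (hw : ‖w‖ ≤ e) (hM : ∀ i j, ‖M i j‖ ≤ e) (he : 1 ≤ e) (k : ℕ)
    (i j : Fin D) : ‖matN d α b M w k i j‖ ≤ EE d (Gam d D A) e k := by
  have hΓA := Gam_ge (d := d) hD hA
  have hΓ : 1 ≤ Gam d D A := hA.trans hΓA
  have hD1 : (1 : ℝ) ≤ (D : ℝ) := by exact_mod_cast hD
  induction k generalizing i j with
  | zero => exact hM i j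
  | succ k ih =>
    simp only [matN, EE]
    have h0 : 0 ≤ EE d (Gam d D A) e k := zero_le_one.trans (EE_pos hΓ he k)
    have hd := den_bound (d := d) (D := D) hD hb hA hw he k
    have hp := pow_entry_bound h0 ih
    set E := EE d (Gam d D A) e k
    rw [Matrix.sum_apply]
    calc ‖∑ l ∈ Finset.range (d + 1),
          ((α l * den d b w k ^ (d - l)) • matN d α b M w k ^ l) i j‖
        ≤ ∑ _l ∈ Finset.range (d + 1), A * ((D : ℝ) ^ d * E ^ d) := by
          refine norm_sum_le_of_le _ fun l hl => ?_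
          have hld : l ≤ d := Nat.lt_succ_iff.mp (Finset.mem_range.mp hl)
          rw [Matrix.smul_apply, smul_eq_mul, norm_mul, norm_mul, norm_pow]
          have h2 := hα l hld
          have h3 := hp l i j
          have h4 : (D : ℝ) ^ l ≤ (D : ℝ) ^ d := pow_le_pow_right₀ hD1 hld
          have h5 : E ^ d = E ^ (d - l) * E ^ l := by
            rw [← pow_add]; congr 1; omega
          calc ‖α l‖ * ‖den d b w k‖ ^ (d - l) * ‖(matN d α b M w k ^ l) i j‖
              ≤ A * E ^ (d - l) * ((D : ℝ) ^ d * E ^ l) := by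
                have h6 : ‖(matN d α b M w k ^ l) i j‖ ≤ (D : ℝ) ^ d * E ^ l :=
                  h3.trans (by gcongr)
                gcongr
            _ = A * ((D : ℝ) ^ d * E ^ d) := by rw [h5]; ring
      _ = Gam d D A * E ^ d := by
          rw [Finset.sum_const, Finset.card_range, nsmul_eq_mul, Gam]
          push_cast
          ring

/-- **The size of the norm form.** -/
theorem FK_bound (hD : 0 < D) (hd : 2 ≤ d) (hα : ∀ i ≤ d, ‖α i‖ ≤ A) (hb : ‖b‖ ≤ A)
    (hA : 1 ≤ A) (hg : ∀ j ≤ D, ‖g j‖ ≤ e) (hx : ‖x‖ ≤ e) (he : 1 ≤ e) (k : ℕ) :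
    ‖FK d α b D g x k‖ ≤
      ((D.factorial : ℝ) * 2 ^ D * (Gam d D A * e) ^ (2 * D)) ^ d ^ k := by
  have hΓA := Gam_ge (d := d) hD hA
  have hΓ : 1 ≤ Gam d D A := hA.trans hΓA
  have hE1 := EE_pos (q := d) hΓ he k
  have hEle := EE_le hd hΓ he k
  set E := EE d (Gam d D A) e k with hE
  have hcm : ∀ i j, ‖cm D g i j‖ ≤ e := by
    intro i j
    unfold cm
    split_ifs
    · rw [norm_neg]; exact hg _ j.2.le
    · exact hg _ le_rfl
    · rw [norm_zero]; linarith
  have hent : ∀ i j, ‖AK d α b D g x k i j‖ ≤ 2 * E ^ 2 := by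
    intro i j
    have h1 : ‖(1 : Matrix (Fin D) (Fin D) ℂ) i j‖ ≤ 1 := by
      rw [Matrix.one_apply]; split_ifs <;> simp
    have n1 := num_bound (d := d) (D := D) (w := 1) (x := x) hD hα hb hA (by simpa using he)
      hx he k
    have n2 := den_bound (d := d) (D := D) (w := g D) hD hb hA (hg D le_rfl) he k
    have n3 := den_bound (d := d) (D := D) (w := 1) hD hb hA (by simpa using he) he k
    have n4 := matN_bound (d := d) hD hα hb hA (hg D le_rfl) hcm he k i j
    rw [← hE] at n1 n2 n3 n4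
    have hE0 : 0 ≤ E := zero_le_one.trans hE1
    unfold AK
    rw [Matrix.sub_apply, Matrix.smul_apply, Matrix.smul_apply, smul_eq_mul, smul_eq_mul]
    calc ‖num d α b x 1 k * den d b (g D) k * (1 : Matrix _ _ ℂ) i j -
          den d b 1 k * matN d α b (cm D g) (g D) k i j‖
        ≤ ‖num d α b x 1 k‖ * ‖den d b (g D) k‖ * ‖(1 : Matrix (Fin D) (Fin D) ℂ) i j‖ +
          ‖den d b 1 k‖ * ‖matN d α b (cm D g) (g D) k i j‖ := by
          refine (norm_sub_le _ _).trans ?_
          rw [norm_mul, norm_mul, norm_mul]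
      _ ≤ E * E * 1 + E * E := by gcongr
      _ = 2 * E ^ 2 := by ring
  have hdet := Matrix.det_le (abv := (NormedField.toAbsoluteValue ℂ)) (A := AK d α b D g x k)
    (x := 2 * E ^ 2) (fun i j => hent i j)
  have hdet' : ‖FK d α b D g x k‖ ≤ (D.factorial : ℝ) * (2 * E ^ 2) ^ D := by
    rw [Fintype.card_fin, nsmul_eq_mul] at hdet
    exact hdet
  refine hdet'.trans ?_
  have hqk : 1 ≤ d ^ k := Nat.one_le_pow _ _ (by omega)
  have hE2 : E ≤ (Gam d D A * e) ^ d ^ k := by
    rw [mul_pow]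
    refine hEle.trans ?_
    gcongr
    omega
  have hE0 : 0 ≤ E := zero_le_one.trans hE1
  calc (D.factorial : ℝ) * (2 * E ^ 2) ^ D
      ≤ (D.factorial : ℝ) * (2 * ((Gam d D A * e) ^ d ^ k) ^ 2) ^ D := by gcongr
    _ = (D.factorial : ℝ) * 2 ^ D * ((Gam d D A * e) ^ (2 * D)) ^ d ^ k := by
        rw [mul_pow]; ring
    _ ≤ ((D.factorial : ℝ) * 2 ^ D) ^ d ^ k * ((Gam d D A * e) ^ (2 * D)) ^ d ^ k := by
        gcongr
        have h1 : (1 : ℝ) ≤ (D.factorial : ℝ) * 2 ^ D := by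
          have h2 : (1 : ℝ) ≤ D.factorial := by exact_mod_cast D.factorial_pos
          exact one_le_mul_of_one_le_of_one_le h2 (one_le_pow₀ (by norm_num))
        exact le_self_pow₀ h1 (by omega)
    _ = _ := by rw [← mul_pow]

end bounds

end Pool.Agent.UHG
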