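import Pool.Agent.UH.Rel
import Pool.Agent.UHG.Mat

/-!
# The relation between two coordinates of a curve, general polynomial
-/

set_option autoImplicit false

open NumberField Polynomial

namespace Pool.Agent.UHG

open Pool.Agent.UH (evK evK_apply evK_X evK_C map_evK exists_coeffs)

section
variable {K : Type*} [Field K] [NumberField K]

/-- **The relation.** -/
theorem exists_rel {F : Type*} [Field F] [Algebra K F] {ξ η : F}
    (hη : IsIntegral (IntermediateField.adjoin K {ξ}) η) :
    ∃ (D : ℕ) (g : ℕ → (𝓞 K)[X]), 0 < D ∧ evK ξ (g D) ≠ 0 ∧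
      (∑ j ∈ Finset.range (D + 1), evK ξ (g j) * η ^ j = 0) ∧
      ∀ (d : ℕ) (a : ℕ → K) (α : ℕ → 𝓞 K) (b : 𝓞 K), (b : K) ≠ 0 →
        (∀ i, (α i : K) = b * a i) → ∀ k : ℕ,
        (pv d (fun i => algebraMap K F (a i)))^[k] ξ ≠
          (pv d (fun i => algebraMap K F (a i)))^[k] η →
        FK d (fun i => C (α i)) (C b) D g X k ≠ 0 := by
  set k0 := IntermediateField.adjoin K {ξ} with hk0
  set P := minpoly k0 η with hP
  set D := P.natDegree with hD
  have hDpos : 0 < D := minpoly.natDegree_pos hη
  obtain ⟨g, t, ht, hg⟩ := exists_coeffs (K := K) (ξ := ξ) P D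
  have hgD : evK ξ (g D) ≠ 0 := by
    rw [hg D le_rfl]
    have : P.coeff D = 1 := (minpoly.monic hη).coeff_natDegree
    rw [this]
    simpa using ht
  refine ⟨D, g, hDpos, hgD, ?_, ?_⟩
  · have h1 : ∑ j ∈ Finset.range (D + 1), (P.coeff j : F) * η ^ j = 0 := by
      have h2 := minpoly.aeval k0 η
      rw [aeval_eq_sum_range] at h2
      rw [← h2]
      refine Finset.sum_congr rfl fun j _ => ?_
      rw [Algebra.smul_def]; rfl
    calc ∑ j ∈ Finset.range (D + 1), evK ξ (g j) * η ^ j
        = ∑ j ∈ Finset.range (D + 1), t * ((P.coeff j : F) * η ^ j) := by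
          refine Finset.sum_congr rfl fun j hj => ?_
          rw [hg j (Nat.lt_succ_iff.mp (Finset.mem_range.mp hj))]; ring
      _ = 0 := by rw [← Finset.mul_sum, h1, mul_zero]
  · intro d a α b hb hab k hk
    let Ω := AlgebraicClosure F
    have hchar : CharZero F := charZero_of_injective_algebraMap (algebraMap K F).injective
    have hchark : CharZero k0 := charZero_of_injective_algebraMap (algebraMap K k0).injective
    -- the roots
    have hsep : P.Separable := (minpoly.irreducible hη).separable
    have hspl : (P.map (algebraMap k0 Ω)).Splits := IsAlgClosed.splits _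
    have hcard := card_rootSet_eq_natDegree hsep hspl
    have e : Fin D ≃ P.rootSet Ω := (Fintype.equivFinOfCardEq hcard).symm
    have hroot : ∀ i : Fin D, aeval ((e i : Ω)) P = 0 := fun i => (mem_rootSet.mp (e i).2).2
    -- the images
    set ι : F →ₐ[K] Ω := IsScalarTower.toAlgHom K F Ω with hι
    have hev : ∀ p : (𝓞 K)[X], ι (evK ξ p) = evK (ι ξ) p := fun p => map_evK ι ξ p
    intro h0
    have h1 : evK (K := K) (ι ξ) (FK d (fun i => C (α i)) (C b) D g X k) = 0 := by
      rw [h0, map_zero]
    rw [map_FK, evK_X] at h1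
    simp only [evK_C] at h1
    have hab' : (fun i => algebraMap K Ω (α i : K)) =
        fun i => algebraMap K Ω (b : K) * algebraMap K Ω (a i) := by
      funext i
      rw [← map_mul, hab]
    rw [hab'] at h1
    have hb' : algebraMap K Ω (b : K) ≠ 0 := by
      rw [ne_eq, map_eq_zero]; exact hb
    refine FK_ne_zero d hb' (fun j => evK (ι ξ) (g j)) ?_ (ι ξ) (fun i => (e i : Ω)) ?_ ?_ k ?_ h1
    · rw [← hev]
      intro h2
      exact hgD ((map_eq_zero_iff _ ι.toRingHom.injective).mp h2)
    · intro i j hij
      exact e.injective (Subtype.ext hij)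
    · intro i
      have h2 := hroot i
      rw [aeval_eq_sum_range] at h2
      calc ∑ j ∈ Finset.range (D + 1), evK (ι ξ) (g j) * (e i : Ω) ^ j
          = ∑ j ∈ Finset.range (D + 1), ι t * (P.coeff j • (e i : Ω) ^ j) := by
            refine Finset.sum_congr rfl fun j hj => ?_
            rw [← hev, hg j (Nat.lt_succ_iff.mp (Finset.mem_range.mp hj)), map_mul,
              Algebra.smul_def]
            rw [mul_assoc]
            rfl
        _ = 0 := by rw [← Finset.mul_sum, h2, mul_zero]
    · intro i heq
      apply hk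
      -- the polynomial `f^k(Y) - f^k(ξ)`
      set ξ0 : k0 := IntermediateField.AdjoinSimple.gen K ξ with hξ0
      set Q : k0[X] := (pv d (fun i => C (algebraMap K k0 (a i))))^[k] X -
        C ((pv d (fun i => algebraMap K k0 (a i)))^[k] ξ0) with hQ
      have hQe : ∀ {A : Type _} [Field A] [Algebra k0 A] (y : A), aeval y Q =
          (pv d (fun i => algebraMap k0 A (algebraMap K k0 (a i))))^[k] y -
            (pv d (fun i => algebraMap k0 A (algebraMap K k0 (a i))))^[k]
              (algebraMap k0 A ξ0) := by
        intro A _ _ y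
        rw [hQ, map_sub, aeval_C, map_iter_pv (algebraMap k0 A)]
        congr 1
        have := map_iter_pv (aeval y : k0[X] →ₐ[k0] A).toRingHom d
          (fun i => C (algebraMap K k0 (a i))) X k
        simp only [AlgHom.toRingHom_eq_coe, RingHom.coe_coe, aeval_C, aeval_X] at this
        exact this
      have h3 : aeval ((e i : Ω)) Q = 0 := by
        rw [hQe]
        have h4 : (fun i => algebraMap k0 Ω (algebraMap K k0 (a i))) =
          fun i => algebraMap K Ω (a i) := rfl
        have h5 : algebraMap k0 Ω ξ0 = ι ξ := rfl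
        rw [h4, h5, heq, sub_self]
      have h6 : P ∣ Q := by
        have h7 : minpoly k0 (e i : Ω) = P :=
          (minpoly.eq_of_irreducible_of_monic (minpoly.irreducible hη) (hroot i)
            (minpoly.monic hη)).symm
        rw [← h7]
        exact minpoly.dvd k0 _ h3
      have h8 : aeval η Q = 0 := by
        obtain ⟨R, hR⟩ := h6
        rw [hR, map_mul, minpoly.aeval, zero_mul]
      rw [hQe] at h8
      have h4 : (fun i => algebraMap k0 F (algebraMap K k0 (a i))) =
        fun i => algebraMap K F (a i) := rfl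
      have h5 : algebraMap k0 F ξ0 = ξ := rfl
      rw [h4, h5] at h8
      exact (sub_eq_zero.mp h8).symm

end

end Pool.Agent.UHG
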