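import Pool.Agent.UHG.Base

/-!
# The height of one step and of the iterates, general polynomial
-/

set_option autoImplicit false

open NumberField Height Polynomial

namespace Pool.Agent.UHG

open Pool.Agent.UH (exists_field abs_coe abs_nonneg)

/-- Local estimates: `v (∑ x i) ≤ A max v (x i)` with `A = d + 1` or `A = 1`. -/
theorem local_step {L : Type*} [Field L] (v : AbsoluteValue L ℝ) (d : ℕ) (a : ℕ → L)
    (hd : 1 ≤ d) (ha : a d ≠ 0) (x : L) (A : ℝ) (hA : 1 ≤ A)
    (hv : ∀ (z : ℕ → L) (M : ℝ), (∀ i ∈ Finset.range (d + 1), v (z i) ≤ M) →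
      v (∑ i ∈ Finset.range (d + 1), z i) ≤ A * M) :
    max (v (∑ i ∈ Finset.range (d + 1), a i * x ^ i)) 1 ≤
      (A * ∏ i ∈ Finset.range (d + 1), max (v (a i)) 1) * max (v x) 1 ^ d ∧
    max (v x) 1 ^ d ≤ (A * (∏ i ∈ Finset.range (d + 1), max (v (a i)) 1) *
      max (v (a d)⁻¹) 1) ^ d * max (v (∑ i ∈ Finset.range (d + 1), a i * x ^ i)) 1 := by
  set S := ∏ i ∈ Finset.range (d + 1), max (v (a i)) 1 with hS
  set T := max (v (a d)⁻¹) 1 with hT
  set X := max (v x) 1 with hX
  have hS1 : 1 ≤ S :=
    Finset.prod_induction _ (fun r : ℝ => 1 ≤ r)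
      (fun a b ha hb => one_le_mul_of_one_le_of_one_le ha hb) le_rfl (fun i _ => le_max_right _ _)
  have hT1 : 1 ≤ T := le_max_right _ _
  have hX1 : 1 ≤ X := le_max_right _ _
  have haS : ∀ i ∈ Finset.range (d + 1), v (a i) ≤ S := by
    intro i hi
    rw [hS, ← Finset.mul_prod_erase _ _ hi]
    refine (le_max_left _ 1).trans (le_mul_of_one_le_right (by positivity) ?_)
    exact Finset.prod_induction _ (fun r : ℝ => 1 ≤ r)
      (fun a b ha hb => one_le_mul_of_one_le_of_one_le ha hb) le_rfl (fun i _ => le_max_right _ _)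
  constructor
  · refine max_le ?_ ?_
    · rw [mul_assoc]
      refine hv (fun i => a i * x ^ i) (S * X ^ d) fun i hi => ?_
      have hid : i ≤ d := Nat.lt_succ_iff.mp (Finset.mem_range.mp hi)
      rw [map_mul, map_pow]
      have h1 : v x ^ i ≤ X ^ d := by
        calc v x ^ i ≤ X ^ i := pow_le_pow_left₀ (apply_nonneg _ _) (le_max_left _ _) i
          _ ≤ X ^ d := pow_le_pow_right₀ hX1 hid
      exact mul_le_mul (haS i hi) h1 (by positivity) (by linarith)
    · have h1 : 1 ≤ X ^ d := one_le_pow₀ hX1
      exact one_le_mul_of_one_le_of_one_le (one_le_mul_of_one_le_of_one_le hA hS1) h1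
  · set Y := max (v (∑ i ∈ Finset.range (d + 1), a i * x ^ i)) 1 with hY
    have hY1 : 1 ≤ Y := le_max_right _ _
    have hAS : 1 ≤ A * S := one_le_mul_of_one_le_of_one_le hA hS1
    have hAST : 1 ≤ A * S * T := one_le_mul_of_one_le_of_one_le hAS hT1
    rcases le_or_gt X (A * S * T) with hcase | hcase
    · calc X ^ d ≤ (A * S * T) ^ d := pow_le_pow_left₀ (by linarith) hcase d
        _ ≤ (A * S * T) ^ d * Y := le_mul_of_one_le_right (by positivity) hY1
    · -- the leading term dominates
      have hvx : X = v x := by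
        rw [hX]
        refine max_eq_left ?_
        by_contra hcon
        push Not at hcon
        have : X = 1 := max_eq_right hcon.le
        linarith
      have hsum : a d * x ^ d = ∑ i ∈ Finset.range (d + 1),
          (if i = d then ∑ j ∈ Finset.range (d + 1), a j * x ^ j else -(a i * x ^ i)) := by
        rw [Finset.sum_range_succ, if_pos rfl]
        have h1 : ∑ i ∈ Finset.range d,
            (if i = d then ∑ j ∈ Finset.range (d + 1), a j * x ^ j else -(a i * x ^ i)) =
            -∑ i ∈ Finset.range d, a i * x ^ i := by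
          rw [← Finset.sum_neg_distrib]
          refine Finset.sum_congr rfl fun i hi => ?_
          rw [if_neg (Finset.mem_range.mp hi).ne]
        rw [h1, Finset.sum_range_succ]
        ring
      have hXd : X ^ d = X ^ (d - 1) * X := by
        rw [← pow_succ]; congr 1; omega
      have hX0 : 0 < X := by linarith
      -- if `Y` were small, contradiction
      have hkey : v (a d * x ^ d) ≤ A * max Y (S * X ^ (d - 1)) := by
        rw [hsum]
        refine hv _ _ fun i hi => ?_
        split_ifs with h
        · exact (le_max_left _ _).trans (le_max_left _ _)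
        · rw [map_neg_eq_map, map_mul, map_pow, ← hvx]
          refine le_trans ?_ (le_max_right _ _)
          have hid : i ≤ d - 1 := by
            have := Finset.mem_range.mp hi
            omega
          exact mul_le_mul (haS i hi) (pow_le_pow_right₀ hX1 hid) (by positivity) (by linarith)
      rw [map_mul, map_pow, ← hvx] at hkey
      have hvad : 0 < v (a d) := v.pos ha
      have hTv : 1 ≤ T * v (a d) := by
        have h1 : v (a d)⁻¹ ≤ T := le_max_left _ _
        rw [map_inv₀] at h1
        calc 1 = (v (a d))⁻¹ * v (a d) := (inv_mul_cancel₀ hvad.ne').symm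
          _ ≤ T * v (a d) := mul_le_mul_of_nonneg_right h1 hvad.le
      have h2 : X ^ d ≤ T * (A * max Y (S * X ^ (d - 1))) := by
        calc X ^ d ≤ (T * v (a d)) * X ^ d := le_mul_of_one_le_left (by positivity) hTv
          _ = T * (v (a d) * X ^ d) := by ring
          _ ≤ T * (A * max Y (S * X ^ (d - 1))) :=
              mul_le_mul_of_nonneg_left hkey (by linarith)
      have h3 : S * X ^ (d - 1) < Y := by
        by_contra hcon
        push Not at hcon
        rw [max_eq_right hcon] at h2
        have h4 : T * (A * (S * X ^ (d - 1))) < X ^ d := by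
          rw [hXd]
          calc T * (A * (S * X ^ (d - 1))) = X ^ (d - 1) * (A * S * T) := by ring
            _ < X ^ (d - 1) * X := by
                exact mul_lt_mul_of_pos_left hcase (by positivity)
        linarith
      rw [max_eq_left h3.le] at h2
      calc X ^ d ≤ T * (A * Y) := h2
        _ = (A * 1 * T) * Y := by ring
        _ ≤ (A * S * T) * Y := by gcongr
        _ ≤ (A * S * T) ^ d * Y := by
            gcongr
            exact le_self_pow₀ hAST (by omega)

/-- From local to global. -/
theorem glob {L : Type*} [Field L] [NumberField L] {ι : Type*} (s : Finset ι) (z : ι → L) (y : L)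
    (A : ℝ) (hA : 1 ≤ A)
    (harch : ∀ v : InfinitePlace L, max (v y) 1 ≤ A * ∏ j ∈ s, max (v (z j)) 1)
    (hfin : ∀ v : FinitePlace L, max (v y) 1 ≤ ∏ j ∈ s, max (v (z j)) 1) :
    logHeight₁ y ≤ Module.finrank ℚ L * Real.log A + ∑ j ∈ s, logHeight₁ (z j) := by
  have hfs : ∀ x : L, (fun v : FinitePlace L => max (v x) 1).HasFiniteMulSupport := by
    intro x
    rcases eq_or_ne x 0 with rfl | hx
    · simp [Function.HasFiniteMulSupport]
    · refine (FinitePlace.hasFiniteMulSupport hx).subset ?_
      intro v hv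
      rw [Function.mem_mulSupport] at hv ⊢
      intro h
      apply hv
      rw [h, max_self]
  have hfs2 : (fun v : FinitePlace L => ∏ i ∈ s, max (v (z i)) 1).HasFiniteMulSupport := by
    refine (Set.Finite.biUnion s.finite_toSet fun i _ => hfs (z i)).subset ?_
    intro v hv
    rw [Function.mem_mulSupport] at hv
    by_contra hcon
    simp only [Set.mem_iUnion, not_exists] at hcon
    apply hv
    refine Finset.prod_eq_one fun x hx => ?_
    have := hcon x hx
    rw [Function.mem_mulSupport, not_not] at this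
    exact this
  have key : mulHeight₁ y ≤ A ^ Module.finrank ℚ L * ∏ i ∈ s, mulHeight₁ (z i) := by
    have e1 : ∏ i ∈ s, mulHeight₁ (z i) =
        (∏ v : InfinitePlace L, ∏ i ∈ s, max (v (z i)) 1 ^ v.mult) *
        ∏ᶠ v : FinitePlace L, ∏ i ∈ s, max (v (z i)) 1 := by
      rw [finprod_prod_comm _ _ (fun i _ => hfs (z i)), Finset.prod_comm,
        ← Finset.prod_mul_distrib]
      exact Finset.prod_congr rfl fun i _ => NumberField.mulHeight₁_eq (z i)
    rw [e1, NumberField.mulHeight₁_eq, ← mul_assoc, ← InfinitePlace.sum_mult_eq,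
      ← Finset.prod_pow_eq_pow_sum, ← Finset.prod_mul_distrib]
    refine mul_le_mul ?_ ?_ (finprod_nonneg fun v => by positivity) (by positivity)
    · refine Finset.prod_le_prod (fun v _ => by positivity) fun v _ => ?_
      rw [Finset.prod_pow, ← mul_pow]
      exact pow_le_pow_left₀ (by positivity) (harch v) _
    · exact finprod_le_finprod (hfs y) (fun v => by positivity) hfs2 (fun v => hfin v)
  rw [logHeight₁_eq_log_mulHeight₁]
  refine (Real.log_le_log (mulHeight₁_pos y) key).trans ?_
  rw [Real.log_mul (by positivity) (Finset.prod_ne_zero_iff.mpr fun i _ => mulHeight₁_ne_zero _),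
    Real.log_pow, Real.log_prod (fun i _ => mulHeight₁_ne_zero _)]
  exact le_rfl

theorem max_pow_one {a : ℝ} (ha : 0 ≤ a) (n : ℕ) : max (a ^ n) 1 = max a 1 ^ n := by
  rcases le_or_gt a 1 with h | h
  · rw [max_eq_right h, one_pow, max_eq_right (pow_le_one₀ ha h)]
  · rw [max_eq_left h.le, max_eq_left (one_le_pow₀ h.le)]

/-- Global estimates in a number field. -/
theorem log_step {L : Type*} [Field L] [NumberField L] (d : ℕ) (a : ℕ → L)
    (hd : 1 ≤ d) (ha : a d ≠ 0) (x : L) :
    logHeight₁ (∑ i ∈ Finset.range (d + 1), a i * x ^ i) ≤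
      Module.finrank ℚ L * Real.log ((d : ℝ) + 1) +
        (∑ i ∈ Finset.range (d + 1), logHeight₁ (a i) + d * logHeight₁ x) ∧
    d * logHeight₁ x ≤
      Module.finrank ℚ L * (d * Real.log ((d : ℝ) + 1)) +
        (d * ∑ i ∈ Finset.range (d + 1), logHeight₁ (a i) + d * logHeight₁ (a d) +
          logHeight₁ (∑ i ∈ Finset.range (d + 1), a i * x ^ i)) := by
  set y := ∑ i ∈ Finset.range (d + 1), a i * x ^ i with hy
  have hd1 : (1 : ℝ) ≤ (d : ℝ) + 1 := by
    have : (0 : ℝ) ≤ d := Nat.cast_nonneg d
    linarith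
  have harch := fun v : InfinitePlace L =>
    local_step v.val d a hd ha x ((d : ℝ) + 1) hd1 (fun z M hz => by
      refine (v.val.sum_le _ _).trans ?_
      refine (Finset.sum_le_sum hz).trans (le_of_eq ?_)
      rw [Finset.sum_const, Finset.card_range, nsmul_eq_mul]
      push_cast
      ring)
  have hfin := fun v : FinitePlace L =>
    local_step v.val d a hd ha x 1 le_rfl (fun z M hz => by
      have hv : IsNonarchimedean (v.val : AbsoluteValue L ℝ) :=
        fun x y => FinitePlace.add_le v x y
      rw [one_mul]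
      obtain ⟨i, hi, hi'⟩ := hv.finset_image_add_of_nonempty z
        (t := Finset.range (d + 1)) ⟨0, by simp⟩
      exact hi'.trans (hz i hi))
  constructor
  · have h1 := glob (Finset.range (d + 2)) (fun i => if i < d + 1 then a i else x ^ d) y
      ((d : ℝ) + 1) hd1 (fun v => by
        rw [Finset.prod_range_succ, if_neg (lt_irrefl _)]
        rw [Finset.prod_congr rfl (g := fun i => max (v (a i)) 1) fun i hi => by
          rw [if_pos (Finset.mem_range.mp hi)]]
        rw [map_pow, max_pow_one (apply_nonneg _ _), ← mul_assoc]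
        exact (harch v).1) (fun v => by
        rw [Finset.prod_range_succ, if_neg (lt_irrefl _)]
        rw [Finset.prod_congr rfl (g := fun i => max (v (a i)) 1) fun i hi => by
          rw [if_pos (Finset.mem_range.mp hi)]]
        rw [map_pow, max_pow_one (apply_nonneg _ _)]
        have := (hfin v).1
        rw [one_mul] at this
        exact this)
    rw [Finset.sum_range_succ, if_neg (lt_irrefl _), logHeight₁_pow] at h1
    rw [Finset.sum_congr rfl (g := fun i => logHeight₁ (a i)) fun i hi => by
          rw [if_pos (Finset.mem_range.mp hi)]] at h1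
    exact h1
  · have h1 := glob (Finset.range (d + 3)) (fun i => if i < d + 1 then a i ^ d else
        if i = d + 1 then (a d)⁻¹ ^ d else y) (x ^ d)
      (((d : ℝ) + 1) ^ d) (one_le_pow₀ hd1) (fun v => by
        rw [Finset.prod_range_succ, Finset.prod_range_succ, if_neg (lt_irrefl _), if_pos rfl,
          if_neg (by omega), if_neg (by omega)]
        rw [Finset.prod_congr rfl (g := fun i => max (v (a i)) 1 ^ d) fun i hi => by
          rw [if_pos (Finset.mem_range.mp hi), map_pow, max_pow_one (apply_nonneg _ _)]]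
        rw [map_pow, max_pow_one (apply_nonneg _ _), map_pow, max_pow_one (apply_nonneg _ _)]
        refine ((harch v).2).trans (le_of_eq ?_)
        rw [mul_pow, mul_pow, Finset.prod_pow]
        simp only [mul_assoc]
        rfl) (fun v => by
        rw [Finset.prod_range_succ, Finset.prod_range_succ, if_neg (lt_irrefl _), if_pos rfl,
          if_neg (by omega), if_neg (by omega)]
        rw [Finset.prod_congr rfl (g := fun i => max (v (a i)) 1 ^ d) fun i hi => by
          rw [if_pos (Finset.mem_range.mp hi), map_pow, max_pow_one (apply_nonneg _ _)]]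
        rw [map_pow, max_pow_one (apply_nonneg _ _), map_pow, max_pow_one (apply_nonneg _ _)]
        refine ((hfin v).2).trans (le_of_eq ?_)
        rw [one_mul, mul_pow, Finset.prod_pow]
        simp only [mul_assoc]
        rfl)
    rw [Finset.sum_range_succ, Finset.sum_range_succ, if_neg (lt_irrefl _), if_pos rfl,
      if_neg (by omega), if_neg (by omega), logHeight₁_pow, logHeight₁_pow, logHeight₁_inv,
      Real.log_pow] at h1
    rw [Finset.sum_congr rfl (g := fun i => (d : ℝ) * logHeight₁ (a i)) fun i hi => by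
          rw [if_pos (Finset.mem_range.mp hi), logHeight₁_pow], ← Finset.mul_sum] at h1
    exact h1

section
variable {Ω : Type*} [Field Ω] [CharZero Ω] [Algebra.IsAlgebraic ℚ Ω]

/-- **The height of one step**, coefficient form. -/
theorem abs_step_pv (d : ℕ) (a : ℕ → Ω) (hd : 1 ≤ d) (ha : a d ≠ 0) : ∃ δ : ℝ, 0 ≤ δ ∧
    ∀ x : Ω, absLogHeight₁ (pv d a x) ≤ d * absLogHeight₁ x + δ ∧
      d * absLogHeight₁ x ≤ absLogHeight₁ (pv d a x) + δ := by
  have hlog : 0 ≤ Real.log ((d : ℝ) + 1) := Real.log_nonneg (by
    have : (0 : ℝ) ≤ d := Nat.cast_nonneg d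
    linarith)
  have hd1 : (1 : ℝ) ≤ d := by exact_mod_cast hd
  set S := ∑ i ∈ Finset.range (d + 1), absLogHeight₁ (a i) with hS
  have hS0 : 0 ≤ S := Finset.sum_nonneg fun i _ => abs_nonneg _
  have had := abs_nonneg (a d)
  refine ⟨d * Real.log ((d : ℝ) + 1) + d * S + d * absLogHeight₁ (a d), by positivity,
    fun x => ?_⟩
  obtain ⟨L, hL, hmem⟩ := exists_field ({x} ∪ a '' (Finset.range (d + 1) : Set ℕ))
    ((Set.finite_singleton x).union ((Finset.finite_toSet _).image a))
  obtain ⟨z, hz⟩ := hmem x (by simp)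
  have h1 : ∀ i, ∃ b : L, i < d + 1 → (b : Ω) = a i := by
    intro i
    by_cases hi : i < d + 1
    · obtain ⟨b, hb⟩ := hmem (a i) (Or.inr ⟨i, by simpa using hi, rfl⟩)
      exact ⟨b, fun _ => hb⟩
    · exact ⟨0, fun h => absurd h hi⟩
  choose b hb using h1
  have hbd : b d ≠ 0 := by
    intro h0
    apply ha
    rw [← hb d (by omega), h0]
    rfl
  have hpos : (0 : ℝ) < Module.finrank ℚ L := by exact_mod_cast Module.finrank_pos
  have hev : ((∑ i ∈ Finset.range (d + 1), b i * z ^ i : L) : Ω) = pv d a x := by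
    unfold pv
    push_cast
    rw [hz]
    refine Finset.sum_congr rfl fun i hi => ?_
    rw [hb i (Finset.mem_range.mp hi)]
  have hSL : S = (∑ i ∈ Finset.range (d + 1), logHeight₁ (b i)) / Module.finrank ℚ L := by
    rw [Finset.sum_div]
    refine Finset.sum_congr rfl fun i hi => ?_
    rw [← hb i (Finset.mem_range.mp hi), abs_coe]
  have hadL : absLogHeight₁ (a d) = logHeight₁ (b d) / Module.finrank ℚ L := by
    rw [← hb d (by omega), abs_coe]
  obtain ⟨u1, u2⟩ := log_step d b hd hbd z
  rw [← hev, ← hz, abs_coe, abs_coe]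
  set n : ℝ := (Module.finrank ℚ L : ℝ) with hn
  set Y := logHeight₁ (∑ i ∈ Finset.range (d + 1), b i * z ^ i) with hY
  set Z := logHeight₁ z with hZ
  have hS' : ∑ i ∈ Finset.range (d + 1), logHeight₁ (b i) = n * S := by
    rw [hSL]; field_simp
  have had' : logHeight₁ (b d) = n * absLogHeight₁ (a d) := by
    rw [hadL]; field_simp
  rw [hS'] at u1 u2
  rw [had'] at u2
  have hSd : S ≤ d * S := le_mul_of_one_le_left hS0 hd1
  have hld : Real.log ((d : ℝ) + 1) ≤ d * Real.log ((d : ℝ) + 1) :=
    le_mul_of_one_le_left hlog hd1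
  constructor
  · rw [div_le_iff₀ hpos]
    have e1 : (d * (Z / n) + (d * Real.log ((d : ℝ) + 1) + d * S + d * absLogHeight₁ (a d))) * n =
        d * Z + n * (d * Real.log ((d : ℝ) + 1) + d * S + d * absLogHeight₁ (a d)) := by
      field_simp
    rw [e1]
    have e2 : n * Real.log ((d : ℝ) + 1) + n * S ≤
        n * (d * Real.log ((d : ℝ) + 1) + d * S + d * absLogHeight₁ (a d)) := by
      rw [← mul_add]
      refine mul_le_mul_of_nonneg_left ?_ hpos.le
      have : 0 ≤ d * absLogHeight₁ (a d) := by positivity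
      linarith
    linarith
  · have e1 : (d : ℝ) * (Z / n) = (d * Z) / n := by ring
    rw [e1, div_le_iff₀ hpos]
    have e2 : (Y / n + (d * Real.log ((d : ℝ) + 1) + d * S + d * absLogHeight₁ (a d))) * n =
        Y + n * (d * Real.log ((d : ℝ) + 1) + d * S + d * absLogHeight₁ (a d)) := by
      field_simp
    rw [e2]
    have e3 : n * (d * Real.log ((d : ℝ) + 1) + d * S + d * absLogHeight₁ (a d)) =
      n * (d * Real.log ((d : ℝ) + 1)) + (d * (n * S) + d * (n * absLogHeight₁ (a d))) := by ring
    rw [e3]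
    linarith

/-- **The height of one step.** -/
theorem step_height {K : Type*} [Field K] [Algebra K Ω] (f : K[X]) (hf : 1 ≤ f.natDegree) :
    ∃ δ : ℝ, 0 ≤ δ ∧ ∀ x : Ω, absLogHeight₁ (st f x) ≤ f.natDegree * absLogHeight₁ x + δ ∧
      f.natDegree * absLogHeight₁ x ≤ absLogHeight₁ (st f x) + δ := by
  have hlc : algebraMap K Ω (f.coeff f.natDegree) ≠ 0 := by
    rw [ne_eq, map_eq_zero]
    intro h
    have h1 : f.leadingCoeff = 0 := h
    rw [leadingCoeff_eq_zero] at h1
    rw [h1, natDegree_zero] at hf
    omega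
  obtain ⟨δ, hδ, h⟩ := abs_step_pv f.natDegree (fun i => algebraMap K Ω (f.coeff i)) hf hlc
  refine ⟨δ, hδ, fun x => ?_⟩
  have h1 := h x
  rw [← aeval_eq_pv] at h1
  exact h1

/-- **The height of the iterates.** -/
theorem iter_height {K : Type*} [Field K] [Algebra K Ω] (f : K[X]) (hf : 2 ≤ f.natDegree) :
    ∃ δ : ℝ, 0 ≤ δ ∧ ∀ (x : Ω) (n : ℕ),
      absLogHeight₁ ((st f)^[n] x) ≤ (f.natDegree : ℝ) ^ n * (absLogHeight₁ x + δ) - δ ∧
      (f.natDegree : ℝ) ^ n * (absLogHeight₁ x - δ) + δ ≤ absLogHeight₁ ((st f)^[n] x) := by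
  obtain ⟨δ, hδ0, h⟩ := step_height (Ω := Ω) f (by omega)
  refine ⟨δ, hδ0, fun x n => ?_⟩
  have hq' : (2 : ℝ) ≤ f.natDegree := by exact_mod_cast hf
  set q : ℝ := (f.natDegree : ℝ) with hq
  induction n with
  | zero => simp
  | succ n ih =>
    rw [Function.iterate_succ_apply']
    obtain ⟨h1, h2⟩ := h ((st f)^[n] x)
    obtain ⟨i1, i2⟩ := ih
    have hqn : 0 < q ^ n := by positivity
    constructor
    · calc _ ≤ q * absLogHeight₁ ((st f)^[n] x) + δ := h1
        _ ≤ q * (q ^ n * (absLogHeight₁ x + δ) - δ) + δ := by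
            gcongr
        _ ≤ _ := by
            rw [pow_succ]
            nlinarith
    · calc q ^ (n + 1) * (absLogHeight₁ x - δ) + δ ≤
            q * (q ^ n * (absLogHeight₁ x - δ) + δ) - δ := by
            rw [pow_succ]
            nlinarith
        _ ≤ q * absLogHeight₁ ((st f)^[n] x) - δ := by
            gcongr
        _ ≤ _ := by linarith

end

end Pool.Agent.UHG
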