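import Pool.Agent.UH.Two
import Pool.Agent.UHG.Rel

/-!
# Collisions on a curve have bounded height, general polynomial

The arithmetic input is the degree bound `hC0`: a collision at exact time `N + 1` needs a field of
degree at least `d ^ N / C0`.
-/

set_option autoImplicit false

universe u

open NumberField Polynomial IsDedekindDomain

namespace Pool.Agent.UHG

open Pool.Agent.UH (evK evK_apply evK_X evK_C map_evK exists_mult Spec Spec.rel
  finite_roots_bound abs_height_bound abs_nonneg)

section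
variable {K : Type*} [Field K] [NumberField K]

omit [NumberField K] in
theorem aeval_eq_pv {A : Type*} [Field A] [Algebra K A] (f : K[X]) (z : A) :
    aeval z f = pv f.natDegree (fun i => algebraMap K A (f.coeff i)) z := by
  rw [aeval_eq_sum_range, pv]
  exact Finset.sum_congr rfl fun i _ => by rw [Algebra.smul_def]

/-- The degree of `K(x, y)` for a collision, in terms of the degree of `x`. -/
theorem degree_le {Ω : Type u} [Field Ω] [CharZero Ω] [Algebra K Ω] {d : ℕ} {a : ℕ → K} {C0 : ℕ}
    (hC0 : ∀ (E : Type u) [Field E] [NumberField E] [Algebra K E] (x y : E) (N : ℕ),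
      (pv d (fun i => algebraMap K E (a i)))^[N + 1] x =
        (pv d (fun i => algebraMap K E (a i)))^[N + 1] y →
      (pv d (fun i => algebraMap K E (a i)))^[N] x ≠
        (pv d (fun i => algebraMap K E (a i)))^[N] y →
        d ^ N ≤ C0 * Module.finrank K E)
    (D : ℕ) (k1 : IntermediateField K Ω) [FiniteDimensional K k1] (x1 : k1) {y : Ω}
    (G : Polynomial k1)
    (hG0 : G ≠ 0) (hGD : G.natDegree ≤ D) (hGy : aeval y G = 0) (N : ℕ)
    (h1 : (pv d (fun i => algebraMap K Ω (a i)))^[N + 1] (x1 : Ω) =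
      (pv d (fun i => algebraMap K Ω (a i)))^[N + 1] y)
    (h2 : (pv d (fun i => algebraMap K Ω (a i)))^[N] (x1 : Ω) ≠
      (pv d (fun i => algebraMap K Ω (a i)))^[N] y) :
    d ^ N ≤ C0 * (D * Module.finrank K k1) := by
  have hnf1 : NumberField k1 := NumberField.of_module_finite K _
  have hyi : IsIntegral k1 y := (isAlgebraic_iff_isIntegral).mp ⟨G, hG0, hGy⟩
  set E := IntermediateField.adjoin k1 {y} with hE
  have hfd2 : FiniteDimensional k1 E := IntermediateField.adjoin.finiteDimensional hyi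
  have hnf2 : NumberField E := NumberField.of_module_finite k1 _
  set xE : E := algebraMap k1 E x1 with hxE
  set yE : E := IntermediateField.AdjoinSimple.gen k1 y with hyE
  have ex : algebraMap E Ω xE = x1 := rfl
  have ey : algebraMap E Ω yE = y := rfl
  have ec : (fun i => algebraMap E Ω (algebraMap K E (a i))) =
    fun i => algebraMap K Ω (a i) := rfl
  have hinj : Function.Injective (algebraMap E Ω) := (algebraMap E Ω).injective
  have e1 : (pv d (fun i => algebraMap K E (a i)))^[N + 1] xE =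
      (pv d (fun i => algebraMap K E (a i)))^[N + 1] yE := by
    apply hinj
    rw [map_iter_pv, map_iter_pv, ec, ex, ey]
    exact h1
  have e2 : (pv d (fun i => algebraMap K E (a i)))^[N] xE ≠
      (pv d (fun i => algebraMap K E (a i)))^[N] yE := by
    intro h
    apply h2
    have := congrArg (algebraMap E Ω) h
    rwa [map_iter_pv, map_iter_pv, ec, ex, ey] at this
  have e3 := hC0 E xE yE N e1 e2
  refine e3.trans (Nat.mul_le_mul_left _ ?_)
  have e5 : Module.finrank k1 E = (minpoly k1 y).natDegree :=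
    IntermediateField.adjoin.finrank hyi
  have e6 : (minpoly k1 y).natDegree ≤ D :=
    (natDegree_le_of_dvd (minpoly.dvd k1 y hGy) hG0).trans hGD
  rw [← Module.finrank_mul_finrank K k1 E, e5, mul_comm]
  exact Nat.mul_le_mul_right _ e6

/-- **Collisions on a curve**, coefficient form. -/
theorem collisions_bounded_pv {Ω : Type u} [Field Ω] [CharZero Ω] [Algebra K Ω] [IsAlgClosed Ω]
    [Algebra.IsAlgebraic ℚ Ω] [Algebra.IsAlgebraic K Ω]
    {F : Type*} [Field F] [Algebra K F] {d : ℕ} (hd2 : 2 ≤ d) (a : ℕ → K)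
    (α : ℕ → 𝓞 K) (b : 𝓞 K) (hb0 : (b : K) ≠ 0) (hab : ∀ i, (α i : K) = b * a i) {C0 : ℕ}
    (hC0 : ∀ (E : Type u) [Field E] [NumberField E] [Algebra K E] (x y : E) (N : ℕ),
      (pv d (fun i => algebraMap K E (a i)))^[N + 1] x =
        (pv d (fun i => algebraMap K E (a i)))^[N + 1] y →
      (pv d (fun i => algebraMap K E (a i)))^[N] x ≠
        (pv d (fun i => algebraMap K E (a i)))^[N] y →
        d ^ N ≤ C0 * Module.finrank K E)
    {ξ η : F} (hη : IsIntegral (IntermediateField.adjoin K {ξ}) η) :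
    ∃ B : ℝ, 0 ≤ B ∧ ∀ k : ℕ,
      (pv d (fun i => algebraMap K F (a i)))^[k] ξ ≠
        (pv d (fun i => algebraMap K F (a i)))^[k] η →
      ∀ x y : Ω, Spec K ξ η x y →
        (pv d (fun i => algebraMap K Ω (a i)))^[k] x =
          (pv d (fun i => algebraMap K Ω (a i)))^[k] y →
          absLogHeight₁ x ≤ B := by
  classical
  obtain ⟨D, g, hD, hgD, hrel, hnz⟩ := exists_rel hη
  -- the leading coefficient
  have hgD0 : g D ≠ 0 := by
    rintro h
    rw [h, map_zero] at hgD
    exact hgD rfl
  have hP0 : ((g D).map (algebraMap (𝓞 K) K)).map (algebraMap K Ω) ≠ 0 := by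
    rw [Polynomial.map_ne_zero_iff (algebraMap K Ω).injective,
      Polynomial.map_ne_zero_iff (FaithfulSMul.algebraMap_injective (𝓞 K) K)]
    exact hgD0
  obtain ⟨B1, hB1, hB1'⟩ := finite_roots_bound _ hP0
  -- the constants
  set A : ℝ := 1 + ∑ σ : K →+* ℂ, ((∑ i ∈ Finset.range (d + 1), ‖σ (α i)‖) + ‖σ b‖) with hA
  have hA1 : 1 ≤ A := by
    have : 0 ≤ ∑ σ : K →+* ℂ, ((∑ i ∈ Finset.range (d + 1), ‖σ (α i)‖) + ‖σ b‖) :=
      Finset.sum_nonneg fun σ _ => by positivity
    linarith
  have hAab : ∀ σ : K →+* ℂ, (∑ i ∈ Finset.range (d + 1), ‖σ (α i)‖) + ‖σ b‖ ≤ A := fun σ => by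
    have := Finset.single_le_sum
      (f := fun σ : K →+* ℂ => (∑ i ∈ Finset.range (d + 1), ‖σ (α i)‖) + ‖σ b‖)
      (fun σ _ => by positivity) (Finset.mem_univ σ)
    linarith
  have hAb : ∀ σ : K →+* ℂ, ‖σ b‖ ≤ A := fun σ => by
    have h1 : 0 ≤ ∑ i ∈ Finset.range (d + 1), ‖σ (α i)‖ :=
      Finset.sum_nonneg fun i _ => norm_nonneg _
    have h2 := hAab σ
    linarith
  have hAa : ∀ σ : K →+* ℂ, ∀ i ≤ d, ‖σ (α i)‖ ≤ A := fun σ i hi => by
    have h1 := Finset.single_le_sum (f := fun i => ‖σ (α i)‖) (fun i _ => norm_nonneg _)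
      (Finset.mem_range.mpr (Nat.lt_succ_of_le hi))
    have h2 := hAab σ
    have h3 := norm_nonneg (σ (b : K))
    linarith
  set e : ℝ := 1 + ∑ σ : K →+* ℂ, ∑ j ∈ Finset.range (D + 1), ∑ i ∈ (g j).support,
    ‖σ ((g j).coeff i)‖ with he
  have he1 : 1 ≤ e := by
    have : 0 ≤ ∑ σ : K →+* ℂ, ∑ j ∈ Finset.range (D + 1), ∑ i ∈ (g j).support,
      ‖σ ((g j).coeff i)‖ := Finset.sum_nonneg fun σ _ => Finset.sum_nonneg fun j _ =>
        Finset.sum_nonneg fun i _ => norm_nonneg _
    linarith
  set τ : (K →+* ℂ) → ℂ → ((𝓞 K)[X] →+* ℂ) := fun σ z =>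
    eval₂RingHom (σ.comp (algebraMap (𝓞 K) K)) z with hτ
  have hge : ∀ (σ : K →+* ℂ) (z : ℂ), ‖z‖ = 1 → ∀ j ≤ D, ‖τ σ z (g j)‖ ≤ e := by
    intro σ z hz j hj
    have h1 : ‖τ σ z (g j)‖ ≤ ∑ i ∈ (g j).support, ‖σ ((g j).coeff i)‖ := by
      rw [hτ]
      simp only [coe_eval₂RingHom]
      rw [eval₂_eq_sum, Polynomial.sum]
      refine norm_sum_le_of_le _ fun i _ => ?_
      rw [norm_mul, norm_pow, hz, one_pow, mul_one]
      rfl
    have h2 := Finset.single_le_sum (f := fun j => ∑ i ∈ (g j).support, ‖σ ((g j).coeff i)‖)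
      (fun j _ => Finset.sum_nonneg fun i _ => norm_nonneg _)
      (Finset.mem_range.mpr (Nat.lt_succ_of_le hj))
    have h3 := Finset.single_le_sum (f := fun σ : K →+* ℂ => ∑ j ∈ Finset.range (D + 1),
      ∑ i ∈ (g j).support, ‖σ ((g j).coeff i)‖)
      (fun σ _ => Finset.sum_nonneg fun j _ => Finset.sum_nonneg fun i _ => norm_nonneg _)
      (Finset.mem_univ σ)
    linarith
  set M : ℝ := (D.factorial : ℝ) * 2 ^ D * (Gam d D A * e) ^ (2 * D) with hM
  have hM1 : 1 ≤ M := by
    have h2 : (1 : ℝ) ≤ D.factorial := by exact_mod_cast D.factorial_pos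
    have h3 : (1 : ℝ) ≤ Gam d D A * e :=
      one_le_mul_of_one_le_of_one_le (hA1.trans (Gam_ge hD hA1)) he1
    exact one_le_mul_of_one_le_of_one_le
      (one_le_mul_of_one_le_of_one_le h2 (one_le_pow₀ (by norm_num))) (one_le_pow₀ h3)
  have hlogM : 0 ≤ Real.log M := Real.log_nonneg hM1
  -- the height in terms of the degree
  have hheight : ∀ k : ℕ,
      (pv d (fun i => algebraMap K F (a i)))^[k] ξ ≠
        (pv d (fun i => algebraMap K F (a i)))^[k] η →
      ∀ x y : Ω, Spec K ξ η x y →
        (pv d (fun i => algebraMap K Ω (a i)))^[k] x =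
          (pv d (fun i => algebraMap K Ω (a i)))^[k] y →
          (minpoly K x).natDegree * absLogHeight₁ x ≤ (d : ℝ) ^ k * Real.log M := by
    intro k hk x y hxy hkxy
    set Fk := FK d (fun i => C (α i)) (C b) D g X k with hFk
    have hFk0 : Fk ≠ 0 := hnz d a α b hb0 hab k hk
    have e1 : evK (K := K) x Fk = 0 := by
      rw [hFk, map_FK, evK_X]
      simp only [evK_C]
      have hab' : (fun i => algebraMap K Ω (α i : K)) =
          fun i => algebraMap K Ω (b : K) * algebraMap K Ω (a i) := by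
        funext i
        rw [← map_mul, hab]
      rw [hab']
      exact FK_eq_zero hD d _ _ _ x y (hxy.rel D g hrel) k hkxy
    have h5 : Fk.map (algebraMap (𝓞 K) K) ≠ 0 := by
      rw [Polynomial.map_ne_zero_iff (FaithfulSMul.algebraMap_injective (𝓞 K) K)]
      exact hFk0
    have h6 := abs_height_bound (Fk.map (algebraMap (𝓞 K) K)) h5 (by
      intro i
      rw [coeff_map]
      exact (Fk.coeff i).2) (B := M ^ d ^ k) (one_le_pow₀ hM1) (by
      intro σ z hz
      have e2 : ((Fk.map (algebraMap (𝓞 K) K)).map σ).eval z = τ σ z Fk := by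
        rw [Polynomial.map_map, eval_map]
        rfl
      rw [e2, hFk, map_FK]
      refine FK_bound hD hd2 ?_ ?_ hA1 (hge σ z hz) ?_ he1 k
      · intro i hi
        rw [hτ]
        simp only [coe_eval₂RingHom, eval₂_C]
        exact hAa σ i hi
      · rw [hτ]
        simp only [coe_eval₂RingHom, eval₂_C]
        exact hAb σ
      · rw [hτ]
        simp only [coe_eval₂RingHom, eval₂_X]
        rw [hz]; exact he1) (x := x) (by
      exact e1)
    rw [Real.log_pow] at h6
    exact_mod_cast h6
  refine ⟨B1 + (d * (C0 * D) * Real.log M + Real.log M), by positivity, ?_⟩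
  intro k hk x y hxy hkxy
  by_cases hbad : evK (K := K) x (g D) = 0
  · have h7 := hB1' x (by
      rw [eval_map_algebraMap]
      exact hbad)
    have h8 : 0 ≤ d * (C0 * D) * Real.log M + Real.log M := by positivity
    linarith
  have hxi : IsIntegral K x := Algebra.IsIntegral.isIntegral x
  have hdeg : (0 : ℝ) < (minpoly K x).natDegree := by
    exact_mod_cast minpoly.natDegree_pos hxi
  -- the minimal level
  have hex : ∃ n, (pv d (fun i => algebraMap K Ω (a i)))^[n] x =
    (pv d (fun i => algebraMap K Ω (a i)))^[n] y := ⟨k, hkxy⟩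
  set n := Nat.find hex with hn
  have hn1 := Nat.find_spec hex
  rw [← hn] at hn1
  have hnk : n ≤ k := Nat.find_min' hex hkxy
  have hnF : (pv d (fun i => algebraMap K F (a i)))^[n] ξ ≠
      (pv d (fun i => algebraMap K F (a i)))^[n] η := by
    intro h
    apply hk
    obtain ⟨r, rfl⟩ : ∃ r, k = r + n := ⟨k - n, by omega⟩
    rw [Function.iterate_add_apply, Function.iterate_add_apply, h]
  have h9 := hheight n hnF x y hxy hn1
  rcases Nat.eq_zero_or_pos n with hn0 | hnpos
  · rw [hn0, pow_zero, one_mul] at h9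
    have h10 : absLogHeight₁ x ≤ (minpoly K x).natDegree * absLogHeight₁ x := by
      have h11 : (1 : ℝ) ≤ (minpoly K x).natDegree := by
        exact_mod_cast minpoly.natDegree_pos hxi
      exact le_mul_of_one_le_left (abs_nonneg x) h11
    have h12 : 0 ≤ d * (C0 * D) * Real.log M := by positivity
    linarith
  · obtain ⟨N, hN⟩ : ∃ N, n = N + 1 := ⟨n - 1, by omega⟩
    rw [hN] at hn1 h9
    have hmin : (pv d (fun i => algebraMap K Ω (a i)))^[N] x ≠
        (pv d (fun i => algebraMap K Ω (a i)))^[N] y :=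
      Nat.find_min hex (by omega)
    -- the polynomial satisfied by `y` over `K(x)`
    set k1 := IntermediateField.adjoin K {x} with hk1
    set x1 : k1 := IntermediateField.AdjoinSimple.gen K x with hx1
    set G : k1[X] := ∑ j ∈ Finset.range (D + 1), C (evK x1 (g j)) * X ^ j with hG
    have hx1e : ∀ j, algebraMap k1 Ω (evK x1 (g j)) = evK x (g j) := by
      intro j
      exact map_evK (IsScalarTower.toAlgHom K k1 Ω) x1 (g j)
    have hGcoeff : G.coeff D = evK x1 (g D) := by
      rw [hG, finsetSum_coeff]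
      simp [coeff_X_pow]
    have hG0 : G ≠ 0 := by
      intro h
      apply hbad
      rw [h, coeff_zero] at hGcoeff
      rw [← hx1e, ← hGcoeff, map_zero]
    have hGD : G.natDegree ≤ D := by
      rw [hG]
      refine natDegree_sum_le_of_forall_le _ _ fun j hj => ?_
      refine (natDegree_C_mul_X_pow_le _ _).trans ?_
      exact Nat.lt_succ_iff.mp (Finset.mem_range.mp hj)
    have hGy : aeval y G = 0 := by
      rw [hG, map_sum, ← hxy.rel D g hrel]
      refine Finset.sum_congr rfl fun j _ => ?_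
      rw [map_mul, aeval_C, map_pow, aeval_X, hx1e]
    have hfd1 : FiniteDimensional K k1 := IntermediateField.adjoin.finiteDimensional hxi
    have h13 := degree_le (Ω := Ω) hC0 D k1 x1 G hG0 hGD hGy N hn1 hmin
    rw [show Module.finrank K k1 = (minpoly K x).natDegree from
      IntermediateField.adjoin.finrank hxi] at h13
    have h14 : (d : ℝ) ^ N ≤ C0 * (D * (minpoly K x).natDegree) := by exact_mod_cast h13
    have h15 : (minpoly K x).natDegree * absLogHeight₁ x ≤
        (minpoly K x).natDegree * (d * (C0 * D) * Real.log M) := by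
      calc _ ≤ (d : ℝ) ^ (N + 1) * Real.log M := h9
        _ = d * (d : ℝ) ^ N * Real.log M := by ring
        _ ≤ d * (C0 * (D * (minpoly K x).natDegree)) * Real.log M := by gcongr
        _ = _ := by ring
    have h16 := le_of_mul_le_mul_left h15 hdeg
    linarith

omit [NumberField K] in
theorem iter_aeval_eq {A : Type*} [Field A] [Algebra K A] (f : K[X]) :
    (fun z : A => aeval z f) = pv f.natDegree (fun i => algebraMap K A (f.coeff i)) := by
  funext z
  exact aeval_eq_pv f z

/-- **Collisions on a curve**: `f` any polynomial of degree at least two. -/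
theorem collisions_bounded {Ω : Type u} [Field Ω] [CharZero Ω] [Algebra K Ω] [IsAlgClosed Ω]
    [Algebra.IsAlgebraic ℚ Ω] [Algebra.IsAlgebraic K Ω]
    {F : Type*} [Field F] [Algebra K F] (f : K[X]) (hd2 : 2 ≤ f.natDegree) {C0 : ℕ}
    (hC0 : ∀ (E : Type u) [Field E] [NumberField E] [Algebra K E] (x y : E) (N : ℕ),
      (fun z : E => aeval z f)^[N + 1] x = (fun z : E => aeval z f)^[N + 1] y →
      (fun z : E => aeval z f)^[N] x ≠ (fun z : E => aeval z f)^[N] y →
        f.natDegree ^ N ≤ C0 * Module.finrank K E)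
    {ξ η : F} (hη : IsIntegral (IntermediateField.adjoin K {ξ}) η) :
    ∃ B : ℝ, 0 ≤ B ∧ ∀ k : ℕ,
      (fun z : F => aeval z f)^[k] ξ ≠ (fun z : F => aeval z f)^[k] η →
      ∀ x y : Ω, Spec K ξ η x y →
        (fun z : Ω => aeval z f)^[k] x = (fun z : Ω => aeval z f)^[k] y →
          absLogHeight₁ x ≤ B := by
  obtain ⟨b, N, hb, hN⟩ := exists_mult f
  have h1 : ∀ i, ((N.coeff i : 𝓞 K) : K) = b * f.coeff i := by
    intro i
    have := congrArg (fun p : K[X] => p.coeff i) hN
    simp only [coeff_map, coeff_C_mul] at this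
    exact this
  have hC0' : ∀ (E : Type u) [Field E] [NumberField E] [Algebra K E] (x y : E) (N : ℕ),
      (pv f.natDegree (fun i => algebraMap K E (f.coeff i)))^[N + 1] x =
        (pv f.natDegree (fun i => algebraMap K E (f.coeff i)))^[N + 1] y →
      (pv f.natDegree (fun i => algebraMap K E (f.coeff i)))^[N] x ≠
        (pv f.natDegree (fun i => algebraMap K E (f.coeff i)))^[N] y →
        f.natDegree ^ N ≤ C0 * Module.finrank K E := by
    intro E _ _ _ x y N
    have h2 := hC0 E x y N
    rw [iter_aeval_eq (A := E) f] at h2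
    exact h2
  have h3 := collisions_bounded_pv (Ω := Ω) (F := F) hd2 f.coeff (fun i => N.coeff i) b hb h1
    hC0' hη
  rw [iter_aeval_eq (A := F) f, iter_aeval_eq (A := Ω) f]
  exact h3

end

end Pool.Agent.UHG
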