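import Pool.Agent.UHG.Base
import Pool.Agent.UHT.TColl
import Pool.Agent.UH2.CollC
import Pool.Agent.UHW.CollG

/-!
# Instances of the degree bound
-/

set_option autoImplicit false

universe u v

open NumberField Polynomial IsDedekindDomain

namespace Pool.Agent.UHG

open Pool.Agent.UH (fc)

theorem st_uni {K A : Type*} [Field K] [CommRing A] [Algebra K A] (q : ℕ) (c : K) :
    (st (X ^ q + C c : K[X]) : A → A) = fc q (algebraMap K A c) := by
  funext z
  simp [st, fc]

theorem DB_of_fc {K : Type v} [Field K] (q : ℕ) (c : K)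
    (h : ∃ C0 : ℕ, 0 < C0 ∧ ∀ (E : Type u) [Field E] [NumberField E] [Algebra K E] (x y : E)
      (N : ℕ), (fc q (algebraMap K E c))^[N + 1] x = (fc q (algebraMap K E c))^[N + 1] y →
      (fc q (algebraMap K E c))^[N] x ≠ (fc q (algebraMap K E c))^[N] y →
        q ^ N ≤ C0 * Module.finrank K E) : DB.{u, v} (X ^ q + C c : K[X]) := by
  obtain ⟨C0, hC0, hC⟩ := h
  refine ⟨C0, hC0, fun E _ _ _ x y N h1 h2 => ?_⟩
  rw [st_uni] at h1 h2
  rw [natDegree_X_pow_add_C]
  exact hC E x y N h1 h2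

/-- wild case -/
theorem DB_wild {K : Type v} [Field K] [NumberField K] {p s : ℕ} (hp : p.Prime) (hs : 0 < s)
    (c : K) (v : HeightOneSpectrum (𝓞 K)) (hv : v.valuation K (p : K) < 1)
    (hc : v.valuation K c ≤ 1) (h0 : ∀ n, 0 < n → (fc (p ^ s) c)^[n] 0 ≠ 0) :
    DB.{u, v} (X ^ (p ^ s) + C c : K[X]) :=
  DB_of_fc _ c (UH.collision hp hs c v hv hc h0)

/-- tame case, attracting -/
theorem DB_tame {K : Type v} [Field K] [NumberField K] {p s : ℕ} (hp : p.Prime) (hs : 0 < s)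
    (c : K) (hc0 : c ≠ 0) (v : HeightOneSpectrum (𝓞 K)) (hv : v.valuation K (p : K) = 1)
    (hc : v.valuation K c < 1) : DB.{u, v} (X ^ (p ^ s) + C c : K[X]) :=
  DB_of_fc _ c (UHT.collision hp hs c hc0 v hv hc)

/-- Chebyshev reduction, degree two -/
theorem DB_cheb {K : Type v} [Field K] [NumberField K] (c : K) (v : HeightOneSpectrum (𝓞 K))
    (h2 : v.valuation K 2 = 1) (hc : v.valuation K (c + 2) < 1) :
    DB.{u, v} (X ^ 2 + C c : K[X]) :=
  DB_of_fc 2 c (UH2.collision_cheb c v h2 hc)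

/-- purely inseparable good reduction -/
theorem DB_good {K : Type v} [Field K] [NumberField K] {p s : ℕ} (hp : p.Prime) (hs : 0 < s)
    (f : K[X]) (v : HeightOneSpectrum (𝓞 K)) (hv : v.valuation K (p : K) < 1)
    (hdeg : f.natDegree = p ^ s) (hlead : v.valuation K (f.coeff (p ^ s)) = 1)
    (hmid : ∀ i, 0 < i → i < p ^ s → v.valuation K (f.coeff i) < 1)
    (hconst : v.valuation K (f.coeff 0) ≤ 1)
    (hcrit : ∀ n, 0 < n → IsCoprime (derivative f) ((f.comp)^[n] X - X)) : DB.{u, v} f :=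
  UHW.collision_good hp hs f v hv hdeg hlead hmid hconst hcrit

end Pool.Agent.UHG
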